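import Pool.Agent.W792.WA.G12

/-!
Moments of the limit of a chain of levels whose errors are very small.
-/

set_option autoImplicit false

namespace Pool.Agent.U281.LAP

open MeasureTheory Filter Pool.Agent.W792.LL Pool.Agent.W792.WA Pool.Agent.W792.WA.Ch
  Pool.Agent.W792.WA.ChK
open scoped Topology

noncomputable section

theorem two_pow_norm (p : ℕ) (a b : ℂ) : ‖a + b‖ ^ p ≤ 2 ^ p * (‖a‖ ^ p + ‖b‖ ^ p) := by
  have h1 : ‖a + b‖ ^ p ≤ (‖a‖ + ‖b‖) ^ p := pow_le_pow_left₀ (norm_nonneg _) (norm_add_le _ _) p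
  have h2 : (‖a‖ + ‖b‖) ^ p ≤ (2 * max ‖a‖ ‖b‖) ^ p := by
    apply pow_le_pow_left₀ (by positivity)
    have := le_max_left ‖a‖ ‖b‖
    have := le_max_right ‖a‖ ‖b‖
    linarith
  have h3 : (max ‖a‖ ‖b‖) ^ p ≤ ‖a‖ ^ p + ‖b‖ ^ p := by
    have ha : 0 ≤ ‖a‖ ^ p := by positivity
    have hb : 0 ≤ ‖b‖ ^ p := by positivity
    rcases max_cases ‖a‖ ‖b‖ with h | h <;> rw [h.1] <;> linarith
  calc ‖a + b‖ ^ p ≤ (2 * max ‖a‖ ‖b‖) ^ p := h1.trans h2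
    _ = 2 ^ p * (max ‖a‖ ‖b‖) ^ p := by rw [mul_pow]
    _ ≤ _ := by gcongr

/-- `(1/2) ^ ((n + 1) (n + 2))`. -/
def cn (n : ℕ) : ℝ := (1 / 2) ^ ((n + 1) * (n + 2))

theorem cn_pos (n : ℕ) : 0 < cn n := by unfold cn; positivity

theorem cn_le (n : ℕ) : cn n ≤ (1 / 2) ^ n := by
  unfold cn
  apply pow_le_pow_of_le_one (by norm_num) (by norm_num)
  nlinarith

theorem cn_step {p n : ℕ} (hp : p ≤ n + 1) :
    2 ^ p * ((1 / 8 : ℝ) ^ ((n + 1) * (n + 2)) + cn (n + 1)) ≤ cn n := by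
  have h1 : (2 : ℝ) ^ p ≤ 2 ^ (n + 1) := pow_le_pow_right₀ (by norm_num) hp
  have e1 : cn (n + 1) = cn n * (1 / 4) ^ (n + 2) := by
    unfold cn
    have : (1 / 4 : ℝ) = (1 / 2) ^ 2 := by norm_num
    rw [this, ← pow_mul, ← pow_add]
    congr 1
    ring
  have e2 : (1 / 8 : ℝ) ^ ((n + 1) * (n + 2)) = cn n * (1 / 4) ^ ((n + 1) * (n + 2)) := by
    unfold cn
    rw [← mul_pow]
    norm_num
  have e3 : (1 / 4 : ℝ) ^ ((n + 1) * (n + 2)) ≤ (1 / 4) ^ (n + 2) := by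
    apply pow_le_pow_of_le_one (by norm_num) (by norm_num)
    nlinarith
  have e4 : (1 / 4 : ℝ) ^ (n + 2) = (1 / 2) ^ (n + 1) * ((1 / 2) ^ (n + 1) * (1 / 4)) := by
    have : (1 / 4 : ℝ) = (1 / 2) ^ 2 := by norm_num
    rw [this, ← pow_mul, ← pow_add, ← pow_add]
    congr 1
    ring
  have e5 : (2 : ℝ) ^ (n + 1) * (1 / 2) ^ (n + 1) = 1 := by
    rw [← mul_pow]; norm_num
  have e6 : (1 / 2 : ℝ) ^ (n + 1) ≤ 1 := pow_le_one₀ (by norm_num) (by norm_num)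
  have hc := cn_pos n
  rw [e1, e2]
  calc (2 : ℝ) ^ p * (cn n * (1 / 4) ^ ((n + 1) * (n + 2)) + cn n * (1 / 4) ^ (n + 2))
      ≤ 2 ^ (n + 1) * (cn n * (1 / 4) ^ (n + 2) + cn n * (1 / 4) ^ (n + 2)) := by gcongr
    _ = cn n * ((2 ^ (n + 1) * (1 / 2) ^ (n + 1)) * ((1 / 2) ^ (n + 1) * (1 / 2))) := by
        rw [e4]; ring
    _ = cn n * ((1 / 2) ^ (n + 1) * (1 / 2)) := by rw [e5, one_mul]
    _ ≤ cn n * (1 * (1 / 2)) := by gcongr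
    _ ≤ cn n := by linarith

variable {ν : Measure ℝ} [IsProbabilityMeasure ν] {d : ℕ} {K : C(UnitAddTorus (Fin d), ℝ)}
  (D : CEK ν K)

/-- The base of the errors. -/
def bn (n : ℕ) : ℝ := (1 - D.q n) * (1 - D.q (n + 1)) / 8

/-- The errors are very small. -/
def Sm : Prop := ∀ n, D.p n ≤ bn D n ^ ((n + 2) ^ 2)

theorem bn_pos (n : ℕ) : 0 < bn D n := by
  have h1 := D.hq1 n
  have h2 := D.hq1 (n + 1)
  unfold bn
  have : 0 < (1 - D.q n) * (1 - D.q (n + 1)) := mul_pos (by linarith) (by linarith)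
  linarith

theorem bn_le1 (n : ℕ) : bn D n ≤ (1 - D.q n) / 8 := by
  have h1 := D.hq1 n
  have h2 := D.hq0 (n + 1)
  unfold bn
  have : (1 - D.q n) * (1 - D.q (n + 1)) ≤ (1 - D.q n) * 1 := by
    apply mul_le_mul_of_nonneg_left (by linarith) (by linarith)
  linarith

theorem bn_le2 (n : ℕ) : bn D n ≤ (1 - D.q (n + 1)) / 8 := by
  have h1 := D.hq1 (n + 1)
  have h2 := D.hq0 n
  unfold bn
  have : (1 - D.q n) * (1 - D.q (n + 1)) ≤ 1 * (1 - D.q (n + 1)) := by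
    apply mul_le_mul_of_nonneg_right (by linarith) (by linarith)
  linarith

theorem bn_le8 (n : ℕ) : bn D n ≤ 1 / 8 := by
  have := bn_le1 D n
  have := D.hq0 n
  linarith

theorem Zn_meas (hM : S_MZP) (hU : S_UNI) (n : ℕ) {z : ℂ} (hz : z ∈ Zs d) :
    Measurable (D.Zn n z) := hM d (D.Un n z) (D.q n) (D.hq1 n) (D.Un_le hU n hz)

theorem Zi_meas (hX : S_CX) (hUU : S_UUC) (hL : S_SCL) (hM : S_MZP) (hU : S_UNI) {z : ℂ}
    (hz : z ∈ Zs d) : Measurable (D.Zi z) := by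
  obtain ⟨q, h0, h1, h2, -⟩ := D.fixed_z hX hUU hL hU hz
  exact hM d (D.V z) q h1 h2

theorem Zi_bd (hX : S_CX) (hUU : S_UUC) (hL : S_SCL) (hZ : S_ZF) (hCay : S_CAY) (hU : S_UNI)
    {z : ℂ} (hz : z ∈ Zs d) : ∃ C : ℝ, 0 ≤ C ∧ ∀ v, ‖D.Zi z v‖ ≤ C := by
  obtain ⟨q, h0, h1, h2, -⟩ := D.fixed_z hX hUU hL hU hz
  exact ⟨1 / (1 - q), by have : 0 < 1 - q := by linarith
                         positivity, fun v => Zf_bound hZ hCay h0 h1 h2 v⟩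

theorem Zn_bd (hZ : S_ZF) (hCay : S_CAY) (hU : S_UNI) (n : ℕ) {z : ℂ} (hz : z ∈ Zs d)
    (v : (Fin d → ℤ) → ℝ) : ‖D.Zn n z v‖ ≤ 1 / (1 - D.q n) :=
  Zf_bound hZ hCay (D.hq0 n) (D.hq1 n) (D.Un_le hU n hz) v

/-- Integrability of powers of bounded functions. -/
theorem int_pow {F : ((Fin d → ℤ) → ℝ) → ℂ} (hF : Measurable F) {C : ℝ}
    (hC : ∀ v, ‖F v‖ ≤ C) (p : ℕ) :
    Integrable (fun v => ‖F v‖ ^ p) (Pn ν (Fin d → ℤ)) := by
  refine Integrable.of_bound (C := C ^ p) (hF.norm.pow_const p).aestronglyMeasurable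
    (ae_of_all _ fun v => ?_)
  rw [Real.norm_of_nonneg (by positivity)]
  exact pow_le_pow_left₀ (norm_nonneg _) (hC v) p

theorem int_pow_sub {F G : ((Fin d → ℤ) → ℝ) → ℂ} (hF : Measurable F) (hG : Measurable G)
    {C B : ℝ} (hC : ∀ v, ‖F v‖ ≤ C) (hB : ∀ v, ‖G v‖ ≤ B) (p : ℕ) :
    Integrable (fun v => ‖F v - G v‖ ^ p) (Pn ν (Fin d → ℤ)) :=
  int_pow (hF.sub hG) (C := C + B)
    (fun v => (norm_sub_le _ _).trans (add_le_add (hC v) (hB v))) p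

/-- Triangle inequality for moments. -/
theorem tri {F G H : ((Fin d → ℤ) → ℝ) → ℂ} {C1 C2 C3 : ℝ} (hF : Measurable F)
    (hG : Measurable G) (hH : Measurable H) (h1 : ∀ v, ‖F v‖ ≤ C1) (h2 : ∀ v, ‖G v‖ ≤ C2)
    (h3 : ∀ v, ‖H v‖ ≤ C3) (p : ℕ) :
    ∫ v, ‖F v - H v‖ ^ p ∂(Pn ν (Fin d → ℤ)) ≤ 2 ^ p * (∫ v, ‖F v - G v‖ ^ p ∂(Pn ν (Fin d → ℤ))
      + ∫ v, ‖G v - H v‖ ^ p ∂(Pn ν (Fin d → ℤ))) := by
  have i1 := int_pow_sub (ν := ν) hF hG h1 h2 p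
  have i2 := int_pow_sub (ν := ν) hG hH h2 h3 p
  have i3 := int_pow_sub (ν := ν) hF hH h1 h3 p
  rw [← integral_add i1 i2, ← integral_const_mul]
  refine integral_mono i3 ((i1.add i2).const_mul _) fun v => ?_
  have := two_pow_norm p (F v - G v) (G v - H v)
  rw [sub_add_sub_cancel] at this
  exact this

/-- One step. -/
theorem step_p (hZ : S_ZF) (hCay : S_CAY) (hM : S_MZP) (hU : S_UNI) (hS : Sm D) {p n : ℕ}
    (hp1 : 1 ≤ p) (hp : p ≤ n + 1) {z : ℂ} (hz : z ∈ Zs d) :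
    ∫ v, ‖D.Zn n z v - D.Zn (n + 1) z v‖ ^ p ∂(Pn ν (Fin d → ℤ))
      ≤ (1 / 8 : ℝ) ^ ((n + 1) * (n + 2)) := by
  have hq1 := D.hq1 n
  have hq2 := D.hq1 (n + 1)
  have hq3 := D.hq0 n
  have hq4 := D.hq0 (n + 1)
  have hb := bn_pos D n
  have hb8 := bn_le8 D n
  set b := bn D n with hbd
  have m1 := Zn_meas D hM hU n hz
  have m2 := Zn_meas D hM hU (n + 1) hz
  have hle : ∀ v, ‖D.Zn n z v - D.Zn (n + 1) z v‖ ≤ 1 / b := by
    intro v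
    have a1 := Zn_bd D hZ hCay hU n hz v
    have a2 := Zn_bd D hZ hCay hU (n + 1) hz v
    have k1 : 1 / (1 - D.q n) ≤ 1 / (8 * b) := by
      apply one_div_le_one_div_of_le (by positivity)
      have := bn_le1 D n
      linarith
    have k2 : 1 / (1 - D.q (n + 1)) ≤ 1 / (8 * b) := by
      apply one_div_le_one_div_of_le (by positivity)
      have := bn_le2 D n
      linarith
    have k3 : 1 / (8 * b) = (1 / 8) * (1 / b) := by field_simp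
    have k4 : 0 < 1 / b := by positivity
    calc ‖D.Zn n z v - D.Zn (n + 1) z v‖ ≤ ‖D.Zn n z v‖ + ‖D.Zn (n + 1) z v‖ := norm_sub_le _ _
      _ ≤ 1 / b := by rw [k3] at k1 k2; linarith
  have i1 := int_pow_sub (ν := ν) m1 m2 (Zn_bd D hZ hCay hU n hz) (Zn_bd D hZ hCay hU (n + 1) hz) p
  have i2 := int_pow_sub (ν := ν) m1 m2 (Zn_bd D hZ hCay hU n hz) (Zn_bd D hZ hCay hU (n + 1) hz) 1
  simp only [pow_one] at i2
  obtain ⟨r, rfl⟩ : ∃ r, p = r + 1 := ⟨p - 1, by omega⟩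
  have hrel := D.rel n z hz _ _ (D.sol_fix hU n hz) (D.sol_fix hU (n + 1) hz)
  have hpn := D.hp n
  calc ∫ v, ‖D.Zn n z v - D.Zn (n + 1) z v‖ ^ (r + 1) ∂(Pn ν (Fin d → ℤ))
      ≤ ∫ v, (1 / b) ^ r * ‖D.Zn n z v - D.Zn (n + 1) z v‖ ∂(Pn ν (Fin d → ℤ)) := by
        refine integral_mono i1 (i2.const_mul _) fun v => ?_
        simp only
        rw [pow_succ]
        gcongr
        exact hle v
    _ = (1 / b) ^ r * ∫ v, ‖D.Zn n z v - D.Zn (n + 1) z v‖ ∂(Pn ν (Fin d → ℤ)) :=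
        integral_const_mul _ _
    _ ≤ (1 / b) ^ r * (D.p n / (64 * 8 ^ n)) := by gcongr; exact hrel
    _ ≤ (1 / b) ^ r * b ^ ((n + 2) ^ 2) := by
        gcongr
        refine le_trans ?_ (hS n)
        apply div_le_self hpn.le
        have : (1 : ℝ) ≤ 8 ^ n := one_le_pow₀ (by norm_num)
        linarith
    _ = b ^ ((n + 2) ^ 2 - r) := by
        have hr : r ≤ (n + 2) ^ 2 := by nlinarith
        have : b ^ ((n + 2) ^ 2) = b ^ r * b ^ ((n + 2) ^ 2 - r) := by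
          rw [← pow_add]; congr 1; omega
        rw [this, ← mul_assoc, ← mul_pow, one_div, inv_mul_cancel₀ hb.ne', one_pow, one_mul]
    _ ≤ (1 / 8) ^ ((n + 2) ^ 2 - r) := pow_le_pow_left₀ hb.le hb8 _
    _ ≤ _ := by
        apply pow_le_pow_of_le_one (by norm_num) (by norm_num)
        have hr : r ≤ n := by omega
        have : (n + 1) * (n + 2) + n ≤ (n + 2) ^ 2 := by nlinarith
        omega

/-- Several steps. -/
theorem steps_p (hZ : S_ZF) (hCay : S_CAY) (hM : S_MZP) (hU : S_UNI) (hS : Sm D) {p : ℕ}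
    (hp1 : 1 ≤ p) {z : ℂ} (hz : z ∈ Zs d) (m : ℕ) : ∀ n : ℕ, p ≤ n + 1 →
    ∫ v, ‖D.Zn n z v - D.Zn (n + m) z v‖ ^ p ∂(Pn ν (Fin d → ℤ)) ≤ cn n := by
  induction m with
  | zero =>
    intro n _
    have hp0 : p ≠ 0 := by omega
    simp only [add_zero, sub_self, norm_zero, zero_pow hp0, integral_zero]
    exact (cn_pos n).le
  | succ m ih =>
    intro n hn
    have e : n + (m + 1) = n + 1 + m := by omega
    rw [e]
    refine (tri (ν := ν) (Zn_meas D hM hU n hz) (Zn_meas D hM hU (n + 1) hz)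
      (Zn_meas D hM hU (n + 1 + m) hz) (Zn_bd D hZ hCay hU n hz) (Zn_bd D hZ hCay hU (n + 1) hz)
      (Zn_bd D hZ hCay hU (n + 1 + m) hz) p).trans ?_
    refine le_trans ?_ (cn_step hn)
    gcongr
    · exact step_p D hZ hCay hM hU hS hp1 hn hz
    · exact ih (n + 1) (by omega)

/-- The limit is close to stage `n`. -/
theorem close_p (hX : S_CX) (hUU : S_UUC) (hL : S_SCL) (hZ : S_ZF) (hCay : S_CAY) (hM : S_MZP)
    (hU : S_UNI) (hS : Sm D) {p n : ℕ} (hp1 : 1 ≤ p) (hn : p ≤ n + 1) {z : ℂ} (hz : z ∈ Zs d) :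
    ∫ v, ‖D.Zi z v - D.Zn n z v‖ ^ p ∂(Pn ν (Fin d → ℤ)) ≤ 2 ^ p * cn n := by
  refine le_of_forall_pos_le_add fun τ hτ => ?_
  obtain ⟨q, h0, h1, h2, h3, h4⟩ := D.fixed_z hX hUU hL hU hz
  obtain ⟨C, hC0, hC⟩ := Zi_bd D hX hUU hL hZ hCay hU hz
  have hq : 0 < 1 - q := by linarith
  have hlim : Tendsto (fun k : ℕ => (8 / D.σ ^ 2 * (4 * D.T k) / (1 - q) ^ 2) ^ p) atTop
      (𝓝 0) := by
    have h5 := ((D.hT0.const_mul 4).const_mul (8 / D.σ ^ 2)).div_const ((1 - q) ^ 2)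
    have h6 := h5.pow p
    have hp0 : p ≠ 0 := by omega
    simpa [zero_pow hp0] using h6
  obtain ⟨k₀, hk₀⟩ := (hlim.eventually_lt_const (show (0 : ℝ) < τ / 2 ^ p by positivity)).exists_forall_of_atTop
  have t1 := tri (ν := ν) (Zi_meas D hX hUU hL hM hU hz) (Zn_meas D hM hU (n + k₀) hz)
    (Zn_meas D hM hU n hz) hC (Zn_bd D hZ hCay hU (n + k₀) hz) (Zn_bd D hZ hCay hU n hz) p
  refine t1.trans ?_
  have t2 : ∫ v, ‖D.Zi z v - D.Zn (n + k₀) z v‖ ^ p ∂(Pn ν (Fin d → ℤ)) ≤ τ / 2 ^ p := by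
    have i1 := int_pow_sub (ν := ν) (Zi_meas D hX hUU hL hM hU hz) (Zn_meas D hM hU (n + k₀) hz)
      hC (Zn_bd D hZ hCay hU (n + k₀) hz) p
    calc ∫ v, ‖D.Zi z v - D.Zn (n + k₀) z v‖ ^ p ∂(Pn ν (Fin d → ℤ))
        ≤ ∫ _, τ / 2 ^ p ∂(Pn ν (Fin d → ℤ)) := by
          refine integral_mono i1 (integrable_const _) fun v => ?_
          refine le_trans ?_ (hk₀ (n + k₀) (by omega)).le
          refine pow_le_pow_left₀ (norm_nonneg _) ?_ p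
          refine (Zf_lip hZ hCay h0 h1 h2 (h3 (n + k₀)) v).trans ?_
          gcongr
          exact h4 (n + k₀)
      _ = τ / 2 ^ p := by simp
  have t3 : ∫ v, ‖D.Zn (n + k₀) z v - D.Zn n z v‖ ^ p ∂(Pn ν (Fin d → ℤ)) ≤ cn n := by
    refine le_trans (le_of_eq ?_) (steps_p D hZ hCay hM hU hS hp1 hz k₀ n hn)
    congr 1
    funext v
    rw [norm_sub_rev]
  calc 2 ^ p * (∫ v, ‖D.Zi z v - D.Zn (n + k₀) z v‖ ^ p ∂(Pn ν (Fin d → ℤ))
        + ∫ v, ‖D.Zn (n + k₀) z v - D.Zn n z v‖ ^ p ∂(Pn ν (Fin d → ℤ)))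
      ≤ 2 ^ p * (τ / 2 ^ p + cn n) := by gcongr
    _ = 2 ^ p * cn n + τ := by field_simp; ring

/-- **Moments.** -/
theorem mom (hX : S_CX) (hUU : S_UUC) (hL : S_SCL) (hZ : S_ZF) (hCay : S_CAY) (hM : S_MZP)
    (hU : S_UNI) (hS : Sm D) {p : ℕ} (hp1 : 1 ≤ p) : ∃ C : ℝ, ∀ z ∈ Zs d,
    ∫ v, ‖D.Zi z v‖ ^ p ∂(Pn ν (Fin d → ℤ)) ≤ C := by
  refine ⟨2 ^ p * (2 ^ p * cn p + (1 / (1 - D.q p)) ^ p), fun z hz => ?_⟩
  obtain ⟨C, hC0, hC⟩ := Zi_bd D hX hUU hL hZ hCay hU hz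
  have t1 := tri (ν := ν) (Zi_meas D hX hUU hL hM hU hz) (Zn_meas D hM hU p hz)
    (H := fun _ => 0) measurable_const hC (Zn_bd D hZ hCay hU p hz) (C3 := 0)
    (fun _ => by simp) p
  simp only [sub_zero] at t1
  refine t1.trans ?_
  gcongr
  · exact close_p D hX hUU hL hZ hCay hM hU hS hp1 (by omega) hz
  · have i1 := int_pow (ν := ν) (Zn_meas D hM hU p hz) (Zn_bd D hZ hCay hU p hz) p
    calc ∫ v, ‖D.Zn p z v‖ ^ p ∂(Pn ν (Fin d → ℤ))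
        ≤ ∫ _, (1 / (1 - D.q p)) ^ p ∂(Pn ν (Fin d → ℤ)) := by
          refine integral_mono i1 (integrable_const _) fun v => ?_
          exact pow_le_pow_left₀ (norm_nonneg _) (Zn_bd D hZ hCay hU p hz v) p
      _ = _ := by simp

/-- **Uniform continuity up to the real axis.** -/
theorem uc (hX : S_CX) (hUU : S_UUC) (hL : S_SCL) (hZ : S_ZF) (hCay : S_CAY) (hM : S_MZP)
    (hU : S_UNI) (hS : Sm D) {p : ℕ} (hp1 : 1 ≤ p) {e : ℝ} (he : 0 < e) : ∃ θ : ℝ, 0 < θ ∧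
    ∀ z ∈ Zs d, ∀ z' ∈ Zs d, ‖z - z'‖ ≤ θ →
      ∫ v, ‖D.Zi z v - D.Zi z' v‖ ^ p ∂(Pn ν (Fin d → ℤ)) ≤ e := by
  have hp0 : p ≠ 0 := by omega
  have hlim : Tendsto (fun n : ℕ => 2 ^ p * (2 ^ p * ((1 / 2 : ℝ) ^ n)
      + 2 ^ p * (2 ^ p * ((1 / 2 : ℝ) ^ n)))) atTop (𝓝 0) := by
    have h := tendsto_pow_atTop_nhds_zero_of_lt_one (by norm_num : (0 : ℝ) ≤ 1 / 2)
      (by norm_num : (1 : ℝ) / 2 < 1)
    have h1 := h.const_mul ((2 : ℝ) ^ p)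
    have h2 := (h1.add (h1.const_mul ((2 : ℝ) ^ p))).const_mul ((2 : ℝ) ^ p)
    simpa using h2
  obtain ⟨n₀, hn₀⟩ := (hlim.eventually_lt_const (show (0 : ℝ) < e / 2 by positivity)).exists_forall_of_atTop
  set n := max n₀ p with hn
  have hnp : p ≤ n + 1 := by omega
  have h1 := hn₀ n (le_max_left _ _)
  have i0 := D.hρ1 n
  have hq : 0 < 1 - D.q n := by linarith [D.hq1 n]
  -- choose the accuracy at stage n
  obtain ⟨w, hw0, hw1⟩ : ∃ w : ℝ, 0 < w ∧ 2 ^ p * (2 ^ p * (w / (1 - D.q n) ^ 2) ^ p) ≤ e / 2 := by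
    have hl : Tendsto (fun w : ℝ => 2 ^ p * (2 ^ p * (w / (1 - D.q n) ^ 2) ^ p)) (𝓝 0) (𝓝 0) := by
      have : Continuous fun w : ℝ => 2 ^ p * (2 ^ p * (w / (1 - D.q n) ^ 2) ^ p) := by fun_prop
      have h2 := this.tendsto 0
      simpa [zero_pow hp0] using h2
    have h2 := (hl.eventually_lt_const (show (0 : ℝ) < e / 2 by positivity))
    obtain ⟨r, hr, hr2⟩ := Metric.eventually_nhds_iff.1 h2
    refine ⟨r / 2, by positivity, (hr2 ?_).le⟩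
    rw [Real.dist_eq, sub_zero, abs_of_pos (by positivity)]
    linarith
  obtain ⟨θ, hθ, hθ1⟩ := (hU ν d (D.ρ n) (D.T n) D.σ (kg K (D.f n)) D.hv (D.hρ3 n) (D.hρ4 n) D.hσ
      (D.gap n)).2.2 w hw0
  refine ⟨θ, hθ, fun z hz z' hz' hzz => ?_⟩
  obtain ⟨C, hC0, hC⟩ := Zi_bd D hX hUU hL hZ hCay hU hz
  obtain ⟨C', hC0', hC'⟩ := Zi_bd D hX hUU hL hZ hCay hU hz'
  have mz := Zi_meas D hX hUU hL hM hU hz
  have mz' := Zi_meas D hX hUU hL hM hU hz'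
  have mn := Zn_meas D hM hU n hz
  have mn' := Zn_meas D hM hU n hz'
  have bn1 := Zn_bd D hZ hCay hU n hz
  have bn2 := Zn_bd D hZ hCay hU n hz'
  have t1 := tri (ν := ν) mz mn mz' hC bn1 hC' p
  have t2 := tri (ν := ν) mn mn' mz' bn1 bn2 hC' p
  have c1 := close_p D hX hUU hL hZ hCay hM hU hS hp1 hnp hz
  have c2 := close_p D hX hUU hL hZ hCay hM hU hS hp1 hnp hz'
  have c2' : ∫ v, ‖D.Zn n z' v - D.Zi z' v‖ ^ p ∂(Pn ν (Fin d → ℤ)) ≤ 2 ^ p * cn n := by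
    refine le_trans (le_of_eq ?_) c2
    congr 1
    funext v
    rw [norm_sub_rev]
  have c3 : ∫ v, ‖D.Zn n z v - D.Zn n z' v‖ ^ p ∂(Pn ν (Fin d → ℤ))
      ≤ (w / (1 - D.q n) ^ 2) ^ p := by
    have hω := (hθ1 _ hz _ hz' hzz _ _ (D.sol_fix hU n hz) (D.sol_fix hU n hz')).2
    have i1 := int_pow_sub (ν := ν) mn mn' bn1 bn2 p
    calc ∫ v, ‖D.Zn n z v - D.Zn n z' v‖ ^ p ∂(Pn ν (Fin d → ℤ))
        ≤ ∫ _, (w / (1 - D.q n) ^ 2) ^ p ∂(Pn ν (Fin d → ℤ)) := by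
          refine integral_mono i1 (integrable_const _) fun v => ?_
          refine pow_le_pow_left₀ (norm_nonneg _) ?_ p
          refine (Zf_lip hZ hCay (D.hq0 n) (D.hq1 n) (D.Un_le hU n hz) (D.Un_le hU n hz') v).trans
            ?_
          gcongr
          exact hω
      _ = _ := by simp
  have hcn := cn_le n
  calc ∫ v, ‖D.Zi z v - D.Zi z' v‖ ^ p ∂(Pn ν (Fin d → ℤ))
      ≤ 2 ^ p * (2 ^ p * cn n + 2 ^ p * ((w / (1 - D.q n) ^ 2) ^ p + 2 ^ p * cn n)) := by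
        refine t1.trans ?_
        gcongr
        refine t2.trans ?_
        gcongr
    _ ≤ 2 ^ p * (2 ^ p * (1 / 2) ^ n + 2 ^ p * ((w / (1 - D.q n) ^ 2) ^ p
          + 2 ^ p * (1 / 2) ^ n)) := by gcongr
    _ = 2 ^ p * (2 ^ p * (1 / 2) ^ n + 2 ^ p * (2 ^ p * (1 / 2) ^ n))
          + 2 ^ p * (2 ^ p * (w / (1 - D.q n) ^ 2) ^ p) := by ring
    _ ≤ e := by linarith

end

end Pool.Agent.U281.LAP
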