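import Pool.Agent.U281.LAP.Abs

/-!
Small values of the imaginary part, and the summary for a chain.
-/

set_option autoImplicit false

namespace Pool.Agent.U281.LAP

open MeasureTheory Filter Pool.Agent.W792.LL Pool.Agent.W792.WA Pool.Agent.W792.WA.Ch
  Pool.Agent.W792.WA.ChK
open scoped Topology

noncomputable section

variable {ν : Measure ℝ} [IsProbabilityMeasure ν] {d : ℕ} {K : C(UnitAddTorus (Fin d), ℝ)}
  (D : CEK ν K)

/-- The lower bound at stage `n`. -/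
def gn (n : ℕ) : ℝ := (1 - D.q n ^ 2) / 4

theorem gn_pos (n : ℕ) : 0 < gn D n := by
  have h1 := D.hq0 n
  have h2 := D.hq1 n
  unfold gn
  have : D.q n ^ 2 < 1 := by nlinarith
  linarith

theorem gn_le (n : ℕ) : gn D n ≤ 1 / 4 := by
  unfold gn
  have := sq_nonneg (D.q n)
  linarith

theorem gn_ge (n : ℕ) : (1 - D.q n) / 8 ≤ gn D n / 2 := by
  have h1 := D.hq0 n
  have h2 := D.hq1 n
  unfold gn
  nlinarith

/-- Small values are rare at stage `n`. -/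
theorem rare (hX : S_CX) (hUU : S_UUC) (hL : S_SCL) (hZ : S_ZF) (hCay : S_CAY)
    (hM : S_MZP) (hU : S_UNI) (hS : Sm D) {p n : ℕ} (hp : p ≤ n + 1) {η E : ℝ}
    (hz : (⟨E, η⟩ : ℂ) ∈ Zs d) :
    ((Pn ν (Fin d → ℤ)) {v | PfK (kg K D.fI) η E v < gn D n / 2}).toReal
        ≤ (gn D (n + 1) / 2) ^ p ∧
    ((Pn ν (Fin d → ℤ)) {v | PfK (kg K D.fI) η E v < gn D n / 2}).toReal ≤ (1 / 8) ^ n := by
  have hg := gn_pos D n
  have hg1 := gn_pos D (n + 1)
  have c1 := D.mean_close hX hUU hL hZ hCay hM hU hz n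
  have i1 := D.int_Zi hX hUU hL hZ hCay hM hU hz
  have i2 := D.int_Zn hZ hCay hM hU n hz
  have hsub : {v | PfK (kg K D.fI) η E v < gn D n / 2} ⊆
      {v | gn D n / 4 ≤ ‖D.Zi ⟨E, η⟩ v - D.Zn n ⟨E, η⟩ v‖} := by
    intro v hv
    have h1 := Zf_pos hZ hCay (D.hq0 n) (D.hq1 n) (D.Un_le hU n hz) v
    have h2 : PfK (kg K D.fI) η E v < gn D n / 2 := hv
    have h3 := Complex.abs_re_le_norm (D.Zi ⟨E, η⟩ v - D.Zn n ⟨E, η⟩ v)
    rw [Complex.sub_re] at h3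
    have h4 := neg_abs_le ((D.Zi ⟨E, η⟩ v).re - (D.Zn n ⟨E, η⟩ v).re)
    have h5 : gn D n ≤ 2 * (D.Zn n ⟨E, η⟩ v).re - 1 := h1
    rw [D.Pf_eq] at h2
    change gn D n / 4 ≤ _
    linarith
  have hmk := mul_meas_ge_le_integral_of_nonneg (μ := Pn ν (Fin d → ℤ))
    (ae_of_all _ fun v => norm_nonneg (D.Zi ⟨E, η⟩ v - D.Zn n ⟨E, η⟩ v))
    (i1.sub i2).norm (gn D n / 4)
  have h5 : ((Pn ν (Fin d → ℤ)) {v | PfK (kg K D.fI) η E v < gn D n / 2}).toReal
      ≤ ((Pn ν (Fin d → ℤ)) {v | gn D n / 4 ≤ ‖D.Zi ⟨E, η⟩ v - D.Zn n ⟨E, η⟩ v‖}).toReal :=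
    ENNReal.toReal_mono (measure_ne_top _ _) (measure_mono hsub)
  have h6 : (gn D n / 4) * ((Pn ν (Fin d → ℤ)) {v | gn D n / 4
        ≤ ‖D.Zi ⟨E, η⟩ v - D.Zn n ⟨E, η⟩ v‖}).toReal
      ≤ D.p n / (32 * 8 ^ n) := by
    refine le_trans ?_ c1
    exact hmk
  have hb := bn_pos D n
  have hb8 := bn_le8 D n
  have hbg : bn D n ≤ gn D n / 2 := (bn_le1 D n).trans (gn_ge D n)
  have hbg1 : bn D n ≤ gn D (n + 1) / 2 := (bn_le2 D n).trans (gn_ge D (n + 1))
  have hpn : D.p n / (32 * 8 ^ n) ≤ D.p n / 2 := by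
    apply div_le_div_of_nonneg_left (D.hp n).le (by norm_num)
    have : (1 : ℝ) ≤ 8 ^ n := one_le_pow₀ (by norm_num)
    linarith
  have hpb : D.p n ≤ bn D n ^ ((n + 2) ^ 2) := hS n
  have key : ∀ c : ℝ, bn D n ^ ((n + 2) ^ 2) ≤ (gn D n / 2) * c →
      ((Pn ν (Fin d → ℤ)) {v | PfK (kg K D.fI) η E v < gn D n / 2}).toReal ≤ c := by
    intro c hc
    refine h5.trans ?_
    have h7 : (gn D n / 4) * ((Pn ν (Fin d → ℤ)) {v | gn D n / 4
        ≤ ‖D.Zi ⟨E, η⟩ v - D.Zn n ⟨E, η⟩ v‖}).toReal ≤ (gn D n / 4) * c := by linarith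
    exact le_of_mul_le_mul_left h7 (by positivity)
  constructor
  · apply key
    calc bn D n ^ ((n + 2) ^ 2) ≤ bn D n ^ (p + 1) := by
          apply pow_le_pow_of_le_one hb.le (by linarith)
          nlinarith
      _ = bn D n * bn D n ^ p := by rw [pow_succ]; ring
      _ ≤ (gn D n / 2) * (gn D (n + 1) / 2) ^ p := by gcongr
  · apply key
    calc bn D n ^ ((n + 2) ^ 2) ≤ bn D n ^ (n + 1) := by
          apply pow_le_pow_of_le_one hb.le (by linarith)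
          nlinarith
      _ = bn D n * bn D n ^ n := by rw [pow_succ]; ring
      _ ≤ (gn D n / 2) * (1 / 8) ^ n := by gcongr

/-- **Small values of the imaginary part are very rare.** -/
theorem small (hX : S_CX) (hUU : S_UUC) (hL : S_SCL) (hZ : S_ZF) (hCay : S_CAY)
    (hM : S_MZP) (hU : S_UNI) (hS : Sm D) (p : ℕ) : ∃ C : ℝ, ∀ η E : ℝ,
    (⟨E, η⟩ : ℂ) ∈ Zs d → ∀ t : ℝ, 0 < t →
      ((Pn ν (Fin d → ℤ)) {v | PfK (kg K D.fI) η E v < t}).toReal ≤ C * t ^ p := by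
  have hgp := gn_pos D p
  refine ⟨1 + (2 / gn D p) ^ p, fun η E hz t ht => ?_⟩
  have hmono : ∀ s : ℝ, t ≤ s → ((Pn ν (Fin d → ℤ)) {v | PfK (kg K D.fI) η E v < t}).toReal
      ≤ ((Pn ν (Fin d → ℤ)) {v | PfK (kg K D.fI) η E v < s}).toReal := fun s hs =>
    ENNReal.toReal_mono (measure_ne_top _ _) (measure_mono fun v hv => lt_of_lt_of_le hv hs)
  have htp : 0 < t ^ p := by positivity
  have hcp : 0 < (2 / gn D p) ^ p := by positivity
  rcases le_or_gt (gn D p / 2) t with h | h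
  · have h1 : ((Pn ν (Fin d → ℤ)) {v | PfK (kg K D.fI) η E v < t}).toReal ≤ 1 := by
      have := prob_le_one (μ := Pn ν (Fin d → ℤ)) (s := {v | PfK (kg K D.fI) η E v < t})
      exact (ENNReal.toReal_mono ENNReal.one_ne_top this).trans (by simp)
    refine h1.trans ?_
    have h2 : 1 ≤ (2 / gn D p) ^ p * t ^ p := by
      rw [← mul_pow]
      apply one_le_pow₀
      rw [div_mul_eq_mul_div, le_div_iff₀ hgp]
      linarith
    nlinarith
  · by_cases hex : ∃ n, p ≤ n ∧ gn D (n + 1) / 2 ≤ t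
    · classical
      set n := Nat.find hex with hn
      obtain ⟨hn1, hn2⟩ := Nat.find_spec hex
      have hlt : t < gn D n / 2 := by
        rcases Nat.eq_or_lt_of_le hn1 with h1 | h1
        · change p = n at h1
          rw [← h1]; exact h
        · have h2 := Nat.find_min hex (m := n - 1) (by omega)
          push Not at h2
          have h3 := h2 (by omega)
          have h4 : n - 1 + 1 = n := by omega
          rwa [h4] at h3
      have hg := gn_pos D (n + 1)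
      calc ((Pn ν (Fin d → ℤ)) {v | PfK (kg K D.fI) η E v < t}).toReal
          ≤ ((Pn ν (Fin d → ℤ)) {v | PfK (kg K D.fI) η E v < gn D n / 2}).toReal :=
            hmono _ hlt.le
        _ ≤ (gn D (n + 1) / 2) ^ p :=
            (rare D hX hUU hL hZ hCay hM hU hS (by omega) hz).1
        _ ≤ t ^ p := by gcongr
        _ ≤ _ := by nlinarith
    · push Not at hex
      have h0 : ((Pn ν (Fin d → ℤ)) {v | PfK (kg K D.fI) η E v < t}).toReal ≤ 0 := by
        have hlim := tendsto_pow_atTop_nhds_zero_of_lt_one (by norm_num : (0 : ℝ) ≤ 1 / 8)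
          (by norm_num : (1 : ℝ) / 8 < 1)
        refine ge_of_tendsto hlim ?_
        filter_upwards [eventually_ge_atTop (p + 1)] with n hn
        have h1 := hex (n - 1) (by omega)
        have h4 : n - 1 + 1 = n := by omega
        rw [h4] at h1
        exact (hmono _ h1.le).trans (rare D hX hUU hL hZ hCay hM hU hS (p := p) (by omega) hz).2
      refine h0.trans ?_
      positivity

/-- The estimates for a symbol and a law. -/
def Lap {d : ℕ} (K : C(UnitAddTorus (Fin d), ℝ)) (ν : Measure ℝ) [IsProbabilityMeasure ν] :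
    Prop :=
  ∀ p : ℕ, 1 ≤ p →
    (∃ C : ℝ, ∀ z ∈ Zs d,
      ∫ v, ‖Zf (us (Measure.dirac 0) 1 z K) (fun x => cay (v x))‖ ^ p ∂(Pn ν (Fin d → ℤ)) ≤ C) ∧
    (∀ e : ℝ, 0 < e → ∃ θ : ℝ, 0 < θ ∧ ∀ z ∈ Zs d, ∀ z' ∈ Zs d, ‖z - z'‖ ≤ θ →
      ∫ v, ‖Zf (us (Measure.dirac 0) 1 z K) (fun x => cay (v x))
        - Zf (us (Measure.dirac 0) 1 z' K) (fun x => cay (v x))‖ ^ p ∂(Pn ν (Fin d → ℤ)) ≤ e) ∧
    ∃ C : ℝ, ∀ η E : ℝ, (⟨E, η⟩ : ℂ) ∈ Zs d → ∀ t : ℝ, 0 < t →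
      ((Pn ν (Fin d → ℤ)) {v | PfK K η E v < t}).toReal ≤ C * t ^ p

theorem Lap_congr {d : ℕ} {K : C(UnitAddTorus (Fin d), ℝ)} {ν ν' : Measure ℝ}
    [IsProbabilityMeasure ν] [IsProbabilityMeasure ν'] (h : ν = ν') (hG : Lap K ν) :
    Lap K ν' := by
  subst h
  exact hG

/-- Summary. -/
theorem lap_of (hX : S_CX) (hUU : S_UUC) (hL : S_SCL) (hZ : S_ZF) (hCay : S_CAY)
    (hM : S_MZP) (hU : S_UNI) (hS : Sm D) : Lap (kg K D.fI) ν := fun p hp =>
  ⟨mom D hX hUU hL hZ hCay hM hU hS hp, fun _ he => uc D hX hUU hL hZ hCay hM hU hS hp he,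
    small D hX hUU hL hZ hCay hM hU hS p⟩

end

end Pool.Agent.U281.LAP
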