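import Pool.Agent.U281.LAP.Abs2
import Pool.Agent.W792.WA.G15
import Pool.Agent.W792.WA.All2

/-!
The construction with errors which are very small compared with the contraction constants of the
next stage.
-/

set_option autoImplicit false

namespace Pool.Agent.U281.LAP

open MeasureTheory Filter Pool.Agent.W792.LL Pool.Agent.W792.WA Pool.Agent.W792.WA.Ch
  Pool.Agent.W792.WA.ChK
open scoped Topology

noncomputable section

variable {d : ℕ} {K : C(UnitAddTorus (Fin d), ℝ)} {ψ : C(UnitAddCircle, ℝ)}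

/-- The contraction constant of stage `n` can be chosen before the kinetic energy. -/
theorem exists_Q (hX : S_CX) (hUU : S_UUC) (hG : S_GAIN) (D : Pr3 K ψ) (n : ℕ) :
    ∃ Q : ℝ, 0 ≤ Q ∧ Q < 1 ∧ ∀ f : C(ℝ, ℝ), (∀ t, |f t| ≤ D.T 0 - D.T n) →
      (∀ j ≤ n, ∀ X ∈ En2 D.δ j,
        GapK (qlaw X) (D.ρ n) (kg K f) (D.se j * (1 / 2 + 1 / 2 ^ (n + 1)))) →
      ∀ X ∈ Xn2 D.δ n, CtrK (qlaw X) (D.ρ n) (kg K f) Q := by
  obtain ⟨σ, h1, h2⟩ := exists_lb (fun j => D.se j / 2) (fun j => by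
    have := D.se_pos j
    positivity) n
  have i0 := D.hρ1 n
  obtain ⟨γ, hγ0, hγ1, hg⟩ := hG (D.ρ n) (D.T n) (2 * D.B) σ (D.hρ3 n) (D.hρ4 n) h1
  refine ⟨√(1 - γ), Real.sqrt_nonneg _, ?_, ?_⟩
  · rw [Real.sqrt_lt' one_pos]
    linarith
  rintro f hf hgap X ⟨j, hj, hXj⟩ z hz s hs
  have hz2 := hz.2.2.1
  have hKB := D.K_le hf
  have hzB := D.z_le hz
  have hsn : ‖s‖ ≤ 1 - σ := by
    have h3 := hgap j hj X hXj z hz s hs
    have h4 := h2 j hj
    have h5 : 0 < D.se j * (1 / 2 ^ (n + 1)) := by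
      have := D.se_pos j
      positivity
    linarith
  have hx : ∀ k, ‖((kg K f k : ℝ) : ℂ) - z‖ ≤ 2 * D.B ∧
      (((kg K f k : ℝ) : ℂ) - z).im ≤ -z.im := by
    intro k
    constructor
    · calc ‖((kg K f k : ℝ) : ℂ) - z‖ ≤ ‖((kg K f k : ℝ) : ℂ)‖ + ‖z‖ := norm_sub_le _ _
        _ ≤ D.B + D.B := by
          rw [Complex.norm_real]
          exact add_le_add (((kg K f).norm_coe_le_norm k).trans hKB) hzB
        _ = _ := by ring
    · simp
  obtain ⟨q, hq0, hq1, hq⟩ := hX.2.2.1 (D.T n) (2 * D.B) z.im hz2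
  have hfm := (hUU d (D.ρ n) (D.T n) q (wz (kg K f) z) s (D.hρ3 n)
    (hX.2.2.2 d _ z hz2.le) hq0 hq1.le (fun k a ha => hq _ a (hx k).1 (hx k).2
      (abs_le.2 ha)) hs.1 (by
        calc q * ‖s‖ ≤ q * 1 := by gcongr; exact hs.1
          _ < 1 := by linarith)).1
  rw [ContinuousMap.norm_le _ (Real.sqrt_nonneg _)]
  intro k
  rw [hfm k]
  have h6 := (hg (((kg K f k : ℝ) : ℂ) - z) 0 (s k) (hx k).1 (by linarith [(hx k).2])
    (by simp) ((s.norm_coe_le_norm k).trans hsn)).2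
  exact Real.le_sqrt_of_sq_le h6

/-- The main construction: one function for all classes, with very small errors. -/
theorem exists_f3y (hX : S_CX) (hUU : S_UUC) (hL : S_SCL) (hZ : S_ZF) (hCay : S_CAY)
    (hM : S_MZP) (hU : S_UNI) (hU2 : S_UNI2) (hS2 : S_STEP2) (hJS : S_JSTEP) (hN : S_NETX2)
    (hG : S_GAIN) (hd : 0 < d) (hψ : IsSemi ψ) {r : ℝ} (D : Pr3 K ψ)
    (hDT : D.T = fun n => 2 * r * (1 / 16) ^ n) :
    ∃ f : C(ℝ, ℝ), IsSum ψ (2 * r) f ∧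
      ∀ (n : ℕ), ∀ X ∈ En2 D.δ n, MestK (kg K f) (qlaw X) ∧ Lap (kg K f) (qlaw X) := by
  choose Q hQ0 hQ1 hQ using fun n => exists_Q hX hUU hG D n
  set τ : ℕ → ℝ := fun n => min ((1 - Q n ^ 2) / 8)
    (((1 - Q n) * (1 - Q (n + 1)) / 8) ^ ((n + 2) ^ 2)) with hτ
  have hτ0 : ∀ n, 0 < τ n := by
    intro n
    have h0 := hQ0 n
    have h1 := hQ1 n
    have h2 := hQ1 (n + 1)
    refine lt_min ?_ ?_
    · have : Q n ^ 2 < 1 := by nlinarith
      linarith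
    · have : 0 < (1 - Q n) * (1 - Q (n + 1)) := mul_pos (by linarith) (by linarith)
      positivity
  obtain ⟨x, hx⟩ := exists_seq (α := C(ℝ, ℝ) × ℝ)
    (fun n a => Inv3 K D.ρ D.T D.J D.δ D.se n a ∧ (n = 0 → a.1 = 0) ∧ a.2 ≤ τ n)
    (fun n a b => Rel3 K ψ D.l D.ρ D.δ n a b) (by
      obtain ⟨a, ⟨h0, h1, h2, h3, q, hq0, hq1, hq2, hq3⟩, ha2⟩ := D.init hU2
      exact ⟨(a.1, min a.2 (τ 0)), ⟨h0, h1, h2, lt_min h3 (hτ0 0), q, hq0, hq1,
        (min_le_left _ _).trans hq2, hq3⟩, ha2, min_le_right _ _⟩) (by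
      intro n a ha
      obtain ⟨b, ⟨h0, h1, h2, h3, q, hq0, hq1, hq2, hq3⟩, hb1, hb2, hb3⟩ :=
        D.step hU2 hS2 hJS hN hd hψ n a ha.1
      exact ⟨(b.1, min b.2 (τ (n + 1))), ⟨⟨h0, h1, h2, lt_min h3 (hτ0 _), q, hq0, hq1,
        (min_le_left _ _).trans hq2, hq3⟩, fun h => absurd h (Nat.succ_ne_zero n),
        min_le_right _ _⟩, hb1, (min_le_left _ _).trans hb2, hb3⟩)
  have hMe : ∀ n, ∃ M : ℕ, (x (n + 1)).1 = nx ψ (x n).1 (D.l n) M := fun n => (hx n).2.1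
  choose M hMe using hMe
  have hq3 : ∀ n, ∀ X ∈ Xn2 D.δ n, CtrK (qlaw X) (D.ρ n) (kg K (x n).1) (Q n) := fun n =>
    hQ n (x n).1 (hx n).1.1.1 (hx n).1.1.2.1
  let L : LvK ψ := {
    l := D.l, T := D.T, f := fun n => (x n).1, M := M
    hψ := hψ.bound
    hl := D.hl
    hT := D.hT
    hTp := D.hTp
    f0 := (hx 0).1.2.1 rfl
    fs := hMe }
  have hT0 : D.T 0 = 2 * r := by rw [hDT]; simp
  have hTt : Tendsto D.T atTop (𝓝 0) := by
    rw [hDT]
    have h1 := (tendsto_pow_atTop_nhds_zero_of_lt_one (by norm_num : (0 : ℝ) ≤ 1 / 16)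
      (by norm_num : (1 : ℝ) / 16 < 1)).const_mul (2 * r)
    simpa using h1
  have hsumle : ∑' j, L.l j ≤ 2 * r := by
    refine Real.tsum_le_of_sum_range_le (fun n => (L.hl n).le) fun m => ?_
    have h1 := L.sum_l 0 m
    have h2 := L.hTp (0 + m)
    simp only [zero_add] at h1 h2
    have h3 : L.T 0 = 2 * r := hT0
    linarith
  refine ⟨L.fI, ⟨L.l, L.M, fun j => (L.hl j).le, L.summable_l, hsumle, fun t => rfl⟩,
    fun j X hXj => ?_⟩
  have hXn : ∀ n, X ∈ Xn2 D.δ (n + j) := fun n => ⟨j, by omega, hXj⟩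
  let E : CEK (qlaw X) K := {
    ρ := fun n => D.ρ (n + j)
    T := fun n => D.T (n + j)
    σ := D.se j / 2
    f := fun n => (x (n + j)).1
    fI := L.fI
    B := D.T 0
    p := fun n => (x (n + j)).2
    q := fun n => Q (n + j)
    hv := Xn2_vr (hXn 0)
    T_anti := fun a b hab => L.T_anti (by omega)
    hTp := fun n => D.hTp _
    hT0 := hTt.comp (tendsto_add_atTop_nat j)
    hρ1 := fun n => D.hρ1 _
    hρ3 := fun n => D.hρ3 _
    hρ4 := fun n => D.hρ4 _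
    hσ := by have := D.se_pos j; positivity
    gap := by
      intro n z hz s hs
      have h1 := (hx (n + j)).1.1.2.1 j (by omega) X hXj z hz s hs
      have h2 : 0 < D.se j * (1 / 2 ^ (n + j + 1)) := by
        have := D.se_pos j
        positivity
      linarith
    hp := fun n => (hx (n + j)).1.1.2.2.2.1
    anti := by
      intro n
      have e : n + 1 + j = n + j + 1 := by omega
      rw [e]
      exact (hx (n + j)).2.2.1
    hq0 := fun n => hQ0 _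
    hq1 := fun n => hQ1 _
    hq2 := fun n => (hx (n + j)).1.2.2.trans (min_le_left _ _)
    ctr := fun n => hq3 _ X (hXn n)
    fI_diff := fun n t => L.fI_diff (n + j) t
    fI_id := L.fI_id
    f_id := fun n t => L.f_id (n + j) t
    rel := by
      intro n z hz s s' hs hs'
      have e : n + 1 + j = n + j + 1 := by omega
      rw [e] at hs' ⊢
      refine ((hx (n + j)).2.2.2 X (hXn n) z hz s s' hs hs').trans ?_
      have h1 := (hx (n + j)).1.1.2.2.2.1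
      apply div_le_div_of_nonneg_left h1.le (by positivity)
      have h2 : (8 : ℝ) ^ n ≤ 8 ^ (n + j) := pow_le_pow_right₀ (by norm_num) (by omega)
      linarith }
  have hSm : Sm E := by
    intro n
    have h1 : (x (n + j)).2 ≤ ((1 - Q (n + j)) * (1 - Q (n + j + 1)) / 8) ^ ((n + j + 2) ^ 2) :=
      (hx (n + j)).1.2.2.trans (min_le_right _ _)
    have hb := bn_pos E n
    have hb8 := bn_le8 E n
    have e : bn E n = (1 - Q (n + j)) * (1 - Q (n + j + 1)) / 8 := by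
      have e1 : n + 1 + j = n + j + 1 := by omega
      change (1 - Q (n + j)) * (1 - Q (n + 1 + j)) / 8 = _
      rw [e1]
    change (x (n + j)).2 ≤ _
    rw [← e] at h1
    refine h1.trans ?_
    apply pow_le_pow_of_le_one hb.le (by linarith)
    exact Nat.pow_le_pow_left (by omega) 2
  exact ⟨E.concl hX hUU hL hZ hCay hM hU, lap_of E hX hUU hL hZ hCay hM hU hSm⟩

/-- The normalised form. -/
theorem kny (hX : S_CX) (hUU : S_UUC) (hL : S_SCL) (hZ : S_ZF) (hCay : S_CAY)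
    (hM : S_MZP) (hU : S_UNI) (hU2 : S_UNI2) (hS2 : S_STEP2) (hJS : S_JSTEP) (hN : S_NETX2)
    (hG : S_GAIN) (hF : S_FUT) (hJ0 : S_J0K) (hB : S_BASE4) (hV : S_MOM) (hQ : S_QNT2)
    (hA : S_AEQK) (ψ : C(UnitAddCircle, ℝ)) (hψ : IsSemi ψ) (d : ℕ)
    (K : C(UnitAddTorus (Fin d), ℝ)) (ε : ℝ) (hd : 0 < d) (hε : 0 < ε)
    (hK0 : ∀ E : ℝ, 0 ≤ E → E ≤ 4 * d → ∃ k, K k = E) :
    ∃ g : C(ℝ, ℝ), IsSum ψ ε g ∧
    ∀ (ν : Measure ℝ) [IsProbabilityMeasure ν], Integrable (fun x : ℝ => x ^ 60) ν →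
    (∀ a : ℝ, ν {a} < 1) → ∃ lam₀ : ℝ, 0 < lam₀ ∧ ∀ lam : ℝ, 0 < lam → lam ≤ lam₀ →
      (∀ᵐ v ∂(Pn ν (Fin d → ℤ)), ACIK (K + gK g d) lam v 0 (4 * d)) ∧
      ∀ [IsProbabilityMeasure (ν.map fun x => lam * x)],
        Lap (K + gK g d) (ν.map fun x => lam * x) := by
  obtain ⟨D, -, hD2, hD3⟩ := exists_Pr3 hF hJ0 hB hd hK0 hψ (r := ε / 2) (by positivity)
  obtain ⟨f, hf1, hf2⟩ := exists_f3y hX hUU hL hZ hCay hM hU hU2 hS2 hJS hN hG hd hψ
    (r := ε / 2) D hD2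
  have hf : IsSum ψ ε f := by
    have e : 2 * (ε / 2) = ε := by ring
    rwa [e] at hf1
  refine ⟨f, hf, fun ν hν hνm hνd => ?_⟩
  obtain ⟨κ, lam₁, hκ, hlam₁, hlam₁', hV1⟩ := hV ν hνm hνd
  obtain ⟨n₀, hn₀⟩ := exists_nat_one_div_lt hκ
  have hδn₀ := D.hδ n₀
  refine ⟨min lam₁ (D.δ n₀ ^ (3 / 2 : ℝ)), lt_min hlam₁ (by positivity), fun lam h0 h1 => ?_⟩
  have h2 : lam ≤ lam₁ := h1.trans (min_le_left _ _)
  have h3 : lam ^ (2 / 3 : ℝ) ≤ D.δ n₀ := by
    have h4 : lam ≤ D.δ n₀ ^ (3 / 2 : ℝ) := h1.trans (min_le_right _ _)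
    calc lam ^ (2 / 3 : ℝ) ≤ (D.δ n₀ ^ (3 / 2 : ℝ)) ^ (2 / 3 : ℝ) :=
          Real.rpow_le_rpow h0.le h4 (by norm_num)
      _ = D.δ n₀ := by
        rw [← Real.rpow_mul hδn₀.le]
        norm_num
  have hδ : 0 < lam ^ (2 / 3 : ℝ) := by positivity
  have hP : IsProbabilityMeasure (ν.map fun x => lam * x) :=
    Measure.isProbabilityMeasure_map (by fun_prop)
  obtain ⟨X, hX1, hX2⟩ := hQ (ν.map fun x => lam * x)
  obtain ⟨X', hX3, hX4, hX5⟩ := hV1 lam h0 h2 X hX2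
  obtain ⟨j, hj1, hj2, hj3⟩ := find_class hD3 hδ h3
  have hvr : 0 < vr (qlaw X) := by
    rw [hX2]
    refine vr_pos hCay _ fun a => ?_
    rw [Measure.map_apply (by fun_prop) (measurableSet_singleton a)]
    have : (fun x => lam * x) ⁻¹' {a} = {a / lam} := by
      ext x
      simp only [Set.mem_preimage, Set.mem_singleton_iff]
      rw [eq_div_iff h0.ne', mul_comm]
    rw [this]
    exact hνd _
  have hXE : X ∈ En2 D.δ j := by
    refine ⟨hX1, hvr, lam ^ (2 / 3 : ℝ), hj2, hj3, X', hX3, hX4, ?_⟩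
    refine le_trans ?_ hX5
    have h5 : 1 / ((j : ℝ) + 1) ≤ κ := by
      have h6 : (n₀ : ℝ) ≤ j := by exact_mod_cast hj1
      have h7 : 1 / ((j : ℝ) + 1) ≤ 1 / ((n₀ : ℝ) + 1) := by
        apply one_div_le_one_div_of_le (by positivity)
        linarith
      linarith
    gcongr
  have hfin := hf2 j X hXE
  exact ⟨hA d ν lam (K + gK f d) hd h0 (MestK_congr hX2 hfin.1), Lap_congr hX2 hfin.2⟩

end

end Pool.Agent.U281.LAP
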