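import Pool.Agent.W465.WAAci

/-!
The density given by the boundary values (the proof follows `Pool.Agent.W465.WAAci`).
-/

set_option autoImplicit false

namespace Pool.Agent.U281.LAP.Dn

open MeasureTheory Filter Set Pool.Agent.W465.WAAci
open scoped Topology ENNReal

noncomputable section

theorem core' (μ : Measure ℝ) [IsFiniteMeasure μ] {a b : ℝ} (hab : a < b) {η : ℕ → ℝ}
    (hη : ∀ n, 0 < η n) (hη0 : Tendsto η atTop (𝓝 0))
    (hsum : Summable fun n => ∫ E in Icc a b, |G μ (η (n + 1)) E - G μ (η n) E|)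
    (hL : ∀ᵐ E ∂(volume.restrict (Ioo a b)), ∃ L : ℝ, 0 < L ∧
      Tendsto (fun n => G μ (η n) E) atTop (𝓝 L)) :
    μ.restrict (Ioo a b) = (volume.restrict (Ioo a b)).withDensity
      fun E => ENNReal.ofReal ((ell μ η E).toReal / Real.pi) := by
  have hlim : ∀ᵐ E ∂(volume.restrict (Ioo a b)),
      Tendsto (fun n => F μ (η n) E) atTop (𝓝 (ell μ η E)) ∧ 0 < ell μ η E ∧ ell μ η E ≠ ∞ := by
    filter_upwards [hL] with E hE
    obtain ⟨L, hL0, hLl⟩ := hE
    have h1 : Tendsto (fun n => F μ (η n) E) atTop (𝓝 (ENNReal.ofReal L)) := by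
      have h2 := ENNReal.tendsto_ofReal hLl
      refine h2.congr fun n => ?_
      exact F_eq μ (hη n) E
    have h3 : ell μ η E = ENNReal.ofReal L := h1.limsup_eq
    rw [h3]
    exact ⟨h1, ENNReal.ofReal_pos.2 hL0, ENNReal.ofReal_ne_top⟩
  have hlim1 := hlim.mono fun E h => h.1
  have key : ∀ c d, a ≤ c → c < d → d ≤ b →
      ∫⁻ t, W c d t ∂μ = ∫⁻ E in Ioo c d, ell μ η E := fun c d hc hcd hd =>
    tendsto_nhds_unique (lim1 μ hη hη0 hcd) (lim2 μ hη hsum hlim1 hc hd)
  have hfin : ∫⁻ E in Ioo a b, ell μ η E ≠ ∞ := by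
    rw [← key a b le_rfl hab le_rfl]
    have h1 : ∫⁻ t, W a b t ∂μ ≤ ∫⁻ _t, ENNReal.ofReal Real.pi ∂μ := by
      apply lintegral_mono
      intro t
      apply ENNReal.ofReal_le_ofReal
      have hpi := Real.pi_pos
      have hs1 : Real.sign (b - t) ≤ 1 := by
        rcases Real.sign_apply_eq (b - t) with h | h | h <;> rw [h] <;> norm_num
      have hs2 : -1 ≤ Real.sign (a - t) := by
        rcases Real.sign_apply_eq (a - t) with h | h | h <;> rw [h] <;> norm_num
      nlinarith
    refine ne_top_of_le_ne_top ?_ h1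
    rw [lintegral_const]
    exact ENNReal.mul_ne_top ENNReal.ofReal_ne_top (measure_ne_top _ _)
  have hseq : ∀ r : ℝ, Tendsto (fun n : ℕ => ENNReal.ofReal (r * (1 / ((n : ℝ) + 1)))) atTop
      (𝓝 0) := by
    intro r
    have h1 := (tendsto_one_div_add_atTop_nhds_zero_nat (𝕜 := ℝ)).const_mul r
    rw [mul_zero] at h1
    have h2 := ENNReal.tendsto_ofReal h1
    rwa [ENNReal.ofReal_zero] at h2
  have hr1 : ∀ n : ℕ, 0 < 1 / ((n : ℝ) + 1) ∧ 1 / ((n : ℝ) + 1) ≤ 1 := by
    intro n
    refine ⟨by positivity, ?_⟩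
    rw [div_le_one (by positivity)]
    have : (0 : ℝ) ≤ n := n.cast_nonneg
    linarith
  have hatom : ∀ u ∈ Icc a b, μ {u} = 0 := by
    rintro u ⟨hau, hub⟩
    rcases lt_or_eq_of_le hub with hub' | rfl
    · have hpos : ∀ n : ℕ, 0 < (b - u) * (1 / ((n : ℝ) + 1)) := fun n =>
        mul_pos (by linarith) (hr1 n).1
      have hle1 : ∀ n : ℕ, (b - u) * (1 / ((n : ℝ) + 1)) ≤ b - u := fun n =>
        mul_le_of_le_one_right (by linarith) (hr1 n).2
      refine atom_zero μ (f := ell μ η) (s := fun n : ℕ => Ioo u (u + (b - u) * (1 / ((n : ℝ) + 1))))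
        (fun n => measurableSet_Ioo) (fun n => Ioo_subset_Ioo hau ?_) ?_ (fun n => ?_) hfin
      · have := hle1 n
        linarith
      · simp_rw [Real.volume_Ioo, add_sub_cancel_left]
        exact hseq _
      · have h1 : u < u + (b - u) * (1 / ((n : ℝ) + 1)) := by
          have := hpos n
          linarith
        rw [← key u _ hau h1 (by have := hle1 n; linarith), ← W_left h1]
        exact atom_le μ _ _ _
    · have hpos : ∀ n : ℕ, 0 < (u - a) * (1 / ((n : ℝ) + 1)) := fun n =>
        mul_pos (by linarith) (hr1 n).1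
      have hle1 : ∀ n : ℕ, (u - a) * (1 / ((n : ℝ) + 1)) ≤ u - a := fun n =>
        mul_le_of_le_one_right (by linarith) (hr1 n).2
      refine atom_zero μ (f := ell μ η) (s := fun n : ℕ => Ioo (u - (u - a) * (1 / ((n : ℝ) + 1))) u)
        (fun n => measurableSet_Ioo) (fun n => Ioo_subset_Ioo ?_ le_rfl) ?_ (fun n => ?_) hfin
      · have := hle1 n
        linarith
      · simp_rw [Real.volume_Ioo, sub_sub_cancel]
        exact hseq _
      · have h1 : u - (u - a) * (1 / ((n : ℝ) + 1)) < u := by
          have := hpos n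
          linarith
        rw [← key _ u (by have := hle1 n; linarith) h1 le_rfl, ← W_right h1]
        exact atom_le μ _ _ _
  have hIoo : ∀ c d, a ≤ c → c < d → d ≤ b →
      ENNReal.ofReal Real.pi * μ (Ioo c d) = ∫⁻ E in Ioo c d, ell μ η E := by
    intro c d hc hcd hd
    rw [← key c d hc hcd hd]
    have h1 : ∀ᵐ t ∂μ, t ≠ c := by
      rw [ae_iff]
      simp only [not_not]
      exact hatom c ⟨hc, by linarith⟩
    have h2 : ∀ᵐ t ∂μ, t ≠ d := by
      rw [ae_iff]
      simp only [not_not]
      exact hatom d ⟨by linarith, hd⟩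
    have h3 : ∫⁻ t, W c d t ∂μ = ∫⁻ t, (Ioo c d).indicator (fun _ => ENNReal.ofReal Real.pi) t ∂μ := by
      apply lintegral_congr_ae
      filter_upwards [h1, h2] with t ht1 ht2
      unfold W
      rcases lt_or_gt_of_ne ht1 with h | h
      · rw [Real.sign_of_pos (by linarith), Real.sign_of_pos (by linarith), sub_self,
          ENNReal.ofReal_zero, indicator_of_notMem]
        rintro ⟨h', _⟩
        linarith
      · rcases lt_or_gt_of_ne ht2 with h' | h'
        · rw [Real.sign_of_pos (by linarith), Real.sign_of_neg (by linarith),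
            indicator_of_mem (show t ∈ Ioo c d from ⟨h, h'⟩)]
          congr 1
          ring
        · rw [Real.sign_of_neg (by linarith), Real.sign_of_neg (by linarith), sub_self,
            ENNReal.ofReal_zero, indicator_of_notMem]
          rintro ⟨_, h''⟩
          linarith
    rw [h3, lintegral_indicator measurableSet_Ioo, lintegral_const, Measure.restrict_apply_univ]
  · have hpi0 : ENNReal.ofReal Real.pi ≠ 0 := (ENNReal.ofReal_pos.2 Real.pi_pos).ne'
    apply Measure.ext_of_Ioc
    intro c d _
    have hM1 : (μ.restrict (Ioo a b)) (Ioo a b)ᶜ = 0 := by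
      rw [Measure.restrict_apply measurableSet_Ioo.compl, compl_inter_self, measure_empty]
    have hM1' : ∀ x, (μ.restrict (Ioo a b)) {x} = 0 := by
      intro x
      rw [Measure.restrict_apply (measurableSet_singleton x)]
      by_cases hx : x ∈ Icc a b
      · exact measure_mono_null inter_subset_left (hatom x hx)
      · have : ({x} : Set ℝ) ∩ Ioo a b = ∅ := by
          ext y
          simp only [mem_inter_iff, mem_singleton_iff, mem_empty_iff_false, iff_false]
          rintro ⟨rfl, hy⟩
          exact hx (Ioo_subset_Icc_self hy)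
        rw [this, measure_empty]
    have hac := withDensity_absolutelyContinuous (volume.restrict (Ioo a b))
      (fun E => ENNReal.ofReal ((ell μ η E).toReal / Real.pi))
    have hM2 : ((volume.restrict (Ioo a b)).withDensity
        (fun E => ENNReal.ofReal ((ell μ η E).toReal / Real.pi))) (Ioo a b)ᶜ = 0 := by
      apply hac
      rw [Measure.restrict_apply measurableSet_Ioo.compl, compl_inter_self, measure_empty]
    have hM2' : ∀ x, ((volume.restrict (Ioo a b)).withDensity
        (fun E => ENNReal.ofReal ((ell μ η E).toReal / Real.pi))) {x} = 0 := by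
      intro x
      apply hac
      rw [Measure.restrict_apply (measurableSet_singleton x)]
      exact measure_mono_null inter_subset_left (by simp)
    rw [meas_Ioc _ hM1 hM1', meas_Ioc _ hM2 hM2']
    have hsub : Ioo (max a c) (min b d) ⊆ Ioo a b :=
      Ioo_subset_Ioo (le_max_left _ _) (min_le_left _ _)
    rw [Measure.restrict_apply measurableSet_Ioo, withDensity_apply _ measurableSet_Ioo,
      Measure.restrict_restrict measurableSet_Ioo, inter_eq_left.2 hsub]
    rcases lt_or_ge (max a c) (min b d) with hlt | hge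
    · have h1 := hIoo _ _ (le_max_left a c) hlt (min_le_left b d)
      have h2 : ∫⁻ E in Ioo (max a c) (min b d), ENNReal.ofReal ((ell μ η E).toReal / Real.pi)
          = ∫⁻ E in Ioo (max a c) (min b d), (ENNReal.ofReal Real.pi)⁻¹ * ell μ η E := by
        apply lintegral_congr_ae
        filter_upwards [ae_restrict_of_ae_restrict_of_subset hsub hlim] with E hE
        rw [ENNReal.ofReal_div_of_pos Real.pi_pos, ENNReal.ofReal_toReal hE.2.2,
          ENNReal.div_eq_inv_mul]
      rw [h2, lintegral_const_mul _ (ell_meas μ hη), ← h1, ← mul_assoc,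
        ENNReal.inv_mul_cancel hpi0 ENNReal.ofReal_ne_top, one_mul]
    · rw [Ioo_eq_empty (not_lt.2 hge)]
      simp

end

end Pool.Agent.U281.LAP.Dn
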