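import Mathlib

/-!
Limits of random variables.
-/

set_option autoImplicit false

namespace Pool.Agent.U281.LAP.Rf

open MeasureTheory Filter
open scoped Topology ENNReal

variable {Ω : Type} [MeasurableSpace Ω] {P : Measure Ω}

theorem tsum_half : ∑' n : ℕ, ENNReal.ofReal ((1 / 2 : ℝ) ^ n) = ENNReal.ofReal 2 := by
  rw [← ENNReal.ofReal_tsum_of_nonneg (fun n => by positivity)
    (summable_geometric_of_lt_one (by norm_num) (by norm_num)),
    tsum_geometric_of_lt_one (by norm_num) (by norm_num)]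
  norm_num

theorem ae_lim {f : ℕ → Ω → ℂ} (hm : ∀ n, Measurable (f n))
    (hs : ∀ n, ∫⁻ ω, ‖f (n + 1) ω - f n ω‖ₑ ∂P ≤ ENNReal.ofReal ((1 / 2) ^ n)) :
    ∀ᵐ ω ∂P, ∃ L, Tendsto (fun n => f n ω) atTop (𝓝 L) := by
  have hmm : ∀ n, Measurable fun ω => ‖f (n + 1) ω - f n ω‖ₑ := fun n =>
    ((hm (n + 1)).sub (hm n)).enorm
  have h1 : ∫⁻ ω, ∑' n, ‖f (n + 1) ω - f n ω‖ₑ ∂P ≠ ∞ := by
    rw [lintegral_tsum fun n => (hmm n).aemeasurable]
    refine ne_top_of_le_ne_top ?_ (ENNReal.tsum_le_tsum hs)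
    rw [tsum_half]
    exact ENNReal.ofReal_ne_top
  filter_upwards [ae_lt_top (Measurable.ennreal_tsum hmm) h1] with ω hω
  have hc : CauchySeq fun n => f n ω := by
    refine cauchySeq_of_edist_le_of_tsum_ne_top (fun n => ‖f (n + 1) ω - f n ω‖ₑ)
      (fun n => ?_) hω.ne
    rw [edist_comm, edist_eq_enorm_sub]
  exact cauchySeq_tendsto_of_complete hc

theorem small_lim {W : Ω → ℝ} {V : ℕ → Ω → ℝ}
    (h : ∀ᵐ ω ∂P, Tendsto (fun n => V n ω) atTop (𝓝 (W ω))) {t : ℝ} {c : ℝ≥0∞}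
    (hc : ∀ n, P {ω | V n ω < t} ≤ c) : P {ω | W ω < t} ≤ c := by
  have h1 : P {ω | W ω < t} ≤ P (⋃ N : ℕ, ⋂ n ∈ Set.Ici N, {ω | V n ω < t}) := by
    refine measure_mono_ae ?_
    filter_upwards [h] with ω hω hW
    obtain ⟨N, hN⟩ := (hω.eventually_lt_const hW).exists_forall_of_atTop
    refine Set.mem_iUnion.2 ⟨N, Set.mem_iInter₂.2 fun n hn => ?_⟩
    exact hN n hn
  refine h1.trans ?_
  have hmono : Monotone fun N : ℕ => ⋂ n ∈ Set.Ici N, {ω | V n ω < t} := by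
    intro N N' hN ω hω
    rw [Set.mem_iInter₂] at hω ⊢
    exact fun n hn => hω n (Set.mem_Ici.2 (le_trans hN hn))
  rw [hmono.measure_iUnion]
  refine iSup_le fun N => ?_
  exact (measure_mono (Set.iInter₂_subset N (Set.mem_Ici.2 le_rfl))).trans (hc N)

theorem mom_lim {X : Ω → ℝ} {V : ℕ → Ω → ℝ} (hm : ∀ n, Measurable (V n))
    (h : ∀ᵐ ω ∂P, Tendsto (fun n => V n ω) atTop (𝓝 (X ω))) {C : ℝ≥0∞}
    (hC : ∀ n, ∫⁻ ω, ENNReal.ofReal (V n ω) ∂P ≤ C) : ∫⁻ ω, ENNReal.ofReal (X ω) ∂P ≤ C := by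
  calc ∫⁻ ω, ENNReal.ofReal (X ω) ∂P
      = ∫⁻ ω, liminf (fun n => ENNReal.ofReal (V n ω)) atTop ∂P := by
        refine lintegral_congr_ae ?_
        filter_upwards [h] with ω hω
        exact ((ENNReal.tendsto_ofReal hω).liminf_eq).symm
    _ ≤ liminf (fun n => ∫⁻ ω, ENNReal.ofReal (V n ω) ∂P) atTop :=
        lintegral_liminf_le fun n => (hm n).ennreal_ofReal
    _ ≤ liminf (fun _ : ℕ => C) atTop := liminf_le_liminf (Eventually.of_forall hC)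
    _ = C := by simp

end Pool.Agent.U281.LAP.Rf
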