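import Pool.Agent.U281.LAP.Gr
import Pool.Agent.U281.LAP.Dn
import Pool.Agent.U281.LAP.Rf

/-!
The density of the spectral measure at the origin.
-/

set_option autoImplicit false

namespace Pool.Agent.U281.LAP

open MeasureTheory Filter Pool.Agent.W792.LL Pool.Agent.W792.WA Pool.Agent.U281.GEN
open scoped Topology ENNReal

noncomputable section

variable {d : ℕ}

/-- The Green function along a sequence. -/
def Fg (K : C(UnitAddTorus (Fin d), ℝ)) (η : ℕ → ℝ) (n : ℕ) (E : ℝ) (v : (Fin d → ℤ) → ℝ) : ℂ :=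
  gf K 1 v ⟨E, η n⟩

/-- The limit of the imaginary part. -/
def el (K : C(UnitAddTorus (Fin d), ℝ)) (η : ℕ → ℝ) (E : ℝ) (v : (Fin d → ℤ) → ℝ) : ℝ≥0∞ :=
  limsup (fun n => ENNReal.ofReal (Fg K η n E v).im) atTop

/-- The density. -/
def hd (K : C(UnitAddTorus (Fin d), ℝ)) (η : ℕ → ℝ) (v : (Fin d → ℤ) → ℝ) (E : ℝ) : ℝ :=
  (el K η E v).toReal / Real.pi

theorem Fg_cont (K : C(UnitAddTorus (Fin d), ℝ)) {η : ℕ → ℝ} (hη : ∀ n, 0 < η n) (n : ℕ)
    (v : (Fin d → ℤ) → ℝ) : Continuous fun E => Fg K η n E v := by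
  have hlip : LipschitzWith (Real.toNNReal (1 / (η n * η n))) (fun E : ℝ => Fg K η n E v) := by
    refine LipschitzWith.of_dist_le_mul fun E E' => ?_
    have h0 : 0 < η n * η n := mul_pos (hη n) (hη n)
    rw [dist_eq_norm, dist_eq_norm, Real.coe_toNNReal _ (by positivity)]
    refine (Pool.Agent.W298.WA.Aeqk.repK K v ⟨E, η n⟩ ⟨E', η n⟩ (hη n) (hη n)).trans ?_
    have h3 : ‖(⟨E, η n⟩ : ℂ) - ⟨E', η n⟩‖ = ‖E - E'‖ := by
      have : (⟨E, η n⟩ : ℂ) - ⟨E', η n⟩ = ((E - E' : ℝ) : ℂ) := by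
        apply Complex.ext <;> simp
      rw [this, Complex.norm_real]
    rw [h3]
    apply le_of_eq
    change ‖E - E'‖ / (η n * η n) = _
    ring
  exact hlip.continuous

theorem Fg_meas (K : C(UnitAddTorus (Fin d), ℝ)) {η : ℕ → ℝ} (hη : ∀ n, 0 < η n) (n : ℕ)
    (E : ℝ) : Measurable fun v : (Fin d → ℤ) → ℝ => Fg K η n E v :=
  gf_meas K (z := ⟨E, η n⟩) (hη n)

theorem Fg_joint (K : C(UnitAddTorus (Fin d), ℝ)) {η : ℕ → ℝ} (hη : ∀ n, 0 < η n) (n : ℕ) :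
    Measurable (Function.uncurry fun (E : ℝ) (v : (Fin d → ℤ) → ℝ) => Fg K η n E v) :=
  measurable_uncurry_of_continuous_of_measurable (fun v => Fg_cont K hη n v)
    (fun E => Fg_meas K hη n E)

theorem el_joint (K : C(UnitAddTorus (Fin d), ℝ)) {η : ℕ → ℝ} (hη : ∀ n, 0 < η n) :
    Measurable (Function.uncurry fun (E : ℝ) (v : (Fin d → ℤ) → ℝ) => el K η E v) :=
  Measurable.limsup fun n => (Complex.measurable_im.comp (Fg_joint K hη n)).ennreal_ofReal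

theorem hd_joint (K : C(UnitAddTorus (Fin d), ℝ)) {η : ℕ → ℝ} (hη : ∀ n, 0 < η n) :
    Measurable (Function.uncurry fun (v : (Fin d → ℤ) → ℝ) (E : ℝ) => hd K η v E) :=
  (((el_joint K hη).comp measurable_swap).ennreal_toReal).div_const _

/-- A good sequence. -/
def Good (K : C(UnitAddTorus (Fin d), ℝ)) (ν : Measure ℝ) [IsProbabilityMeasure ν]
    (a b η₀ : ℝ) (η : ℕ → ℝ) : Prop :=
  (∀ n, 0 < η n) ∧ (∀ n, η n ≤ η₀) ∧ Tendsto η atTop (𝓝 0) ∧
    ∀ (n : ℕ) (E : ℝ), a ≤ E → E ≤ b →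
      ∫⁻ v, ‖Fg K η (n + 1) E v - Fg K η n E v‖ₑ ∂(Pn ν (Fin d → ℤ))
        ≤ ENNReal.ofReal ((1 / 2) ^ n)

theorem exists_good {K : C(UnitAddTorus (Fin d), ℝ)} {ν : Measure ℝ} [IsProbabilityMeasure ν]
    {a b η₀ : ℝ} (h0 : 0 < η₀) (h : LapG K ν a b η₀) : ∃ η, Good K ν a b η₀ η := by
  obtain ⟨-, h2, -⟩ := h 1 le_rfl
  have h3 : ∀ n : ℕ, ∃ θ : ℝ, 0 < θ ∧ ∀ z ∈ St a b η₀, ∀ z' ∈ St a b η₀, ‖z - z'‖ ≤ θ →
      ∫ v, ‖gf K 1 v z - gf K 1 v z'‖ ^ 1 ∂(Pn ν (Fin d → ℤ)) ≤ (1 / 2) ^ n :=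
    fun n => h2 _ (by positivity)
  choose θ hθ hθ1 using h3
  obtain ⟨η, hη0, hη1, hηa, hηle, hηt⟩ := Ch.exists_eta (fun n => min (θ n) η₀)
    (fun n => lt_min (hθ n) h0)
  refine ⟨η, hη0, fun n => (hηle n).trans (min_le_right _ _), hηt, fun n E ha hb => ?_⟩
  have hz : ∀ m, (⟨E, η m⟩ : ℂ) ∈ St a b η₀ := fun m =>
    ⟨ha, hb, hη0 m, (hηle m).trans (min_le_right _ _)⟩
  have hd : ‖(⟨E, η (n + 1)⟩ : ℂ) - ⟨E, η n⟩‖ ≤ θ n := by
    have e : (⟨E, η (n + 1)⟩ : ℂ) - ⟨E, η n⟩ = ((η (n + 1) - η n : ℝ) : ℂ) * Complex.I := by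
      apply Complex.ext <;> simp
    rw [e, norm_mul, Complex.norm_I, mul_one, Complex.norm_real, Real.norm_eq_abs, abs_le]
    have := hηa (Nat.le_succ n)
    have := (hηle n).trans (min_le_left _ _)
    have := hη0 (n + 1)
    have := hη0 n
    constructor <;> linarith
  have h4 := hθ1 n _ (hz (n + 1)) _ (hz n) hd
  simp only [pow_one] at h4
  have i1 := gf_int_sub K ν (hη0 (n + 1)) (hη0 n) 1 (z := ⟨E, η (n + 1)⟩) (z' := ⟨E, η n⟩)
  simp only [pow_one] at i1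
  have h5 : ∫⁻ v, ‖Fg K η (n + 1) E v - Fg K η n E v‖ₑ ∂(Pn ν (Fin d → ℤ))
      = ENNReal.ofReal (∫ v, ‖gf K 1 v ⟨E, η (n + 1)⟩ - gf K 1 v ⟨E, η n⟩‖
        ∂(Pn ν (Fin d → ℤ))) := by
    rw [ofReal_integral_eq_lintegral_ofReal i1 (ae_of_all _ fun v => norm_nonneg _)]
    refine lintegral_congr fun v => ?_
    rw [ofReal_norm]
    rfl
  rw [h5]
  exact ENNReal.ofReal_le_ofReal h4

variable {K : C(UnitAddTorus (Fin d), ℝ)} {ν : Measure ℝ} [IsProbabilityMeasure ν]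
  {a b η₀ : ℝ} {η : ℕ → ℝ}

theorem ofReal_toReal_le {x : ℝ≥0∞} (hx : x ≠ ∞) {c : ℝ} (h : x.toReal ≤ c) :
    x ≤ ENNReal.ofReal c := by
  rw [← ENNReal.ofReal_toReal hx]
  exact ENNReal.ofReal_le_ofReal h

/-- Almost sure limits at a fixed energy. -/
theorem ae_fix (h : LapG K ν a b η₀) (hg : Good K ν a b η₀ η) {E : ℝ} (ha : a ≤ E) (hb : E ≤ b) :
    ∀ᵐ v ∂(Pn ν (Fin d → ℤ)), ∃ L, Tendsto (fun n => Fg K η n E v) atTop (𝓝 L) ∧ 0 < L.im := by
  obtain ⟨hη, hη0, hηt, hs⟩ := hg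
  obtain ⟨-, -, C, hC, h3⟩ := h 1 le_rfl
  have h1 := Rf.ae_lim (P := Pn ν (Fin d → ℤ)) (f := fun n v => Fg K η n E v)
    (fun n => Fg_meas K hη n E) (fun n => hs n E ha hb)
  obtain ⟨W, hW⟩ : ∃ W : ((Fin d → ℤ) → ℝ) → ℂ, W = fun v =>
    limUnder atTop fun n => Fg K η n E v := ⟨_, rfl⟩
  have h2 : ∀ᵐ v ∂(Pn ν (Fin d → ℤ)), Tendsto (fun n => Fg K η n E v) atTop (𝓝 (W v)) := by
    filter_upwards [h1] with v hv
    rw [hW]
    exact tendsto_nhds_limUnder hv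
  have h4 : ∀ᵐ v ∂(Pn ν (Fin d → ℤ)), Tendsto (fun n => (1 + v 0 ^ 2) * (Fg K η n E v).im) atTop
      (𝓝 ((1 + v 0 ^ 2) * (W v).im)) := by
    filter_upwards [h2] with v hv
    exact ((Complex.continuous_im.tendsto _).comp hv).const_mul _
  have h5 : ∀ t : ℝ, 0 < t → (Pn ν (Fin d → ℤ)) {v | (1 + v 0 ^ 2) * (W v).im < t}
      ≤ ENNReal.ofReal (C * t) := by
    intro t ht
    refine Rf.small_lim h4 fun n => ?_
    have h6 := h3 ⟨E, η n⟩ ⟨ha, hb, hη n, hη0 n⟩ t ht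
    rw [pow_one] at h6
    exact ofReal_toReal_le (measure_ne_top _ _) h6
  have h7 : (Pn ν (Fin d → ℤ)) {v | (1 + v 0 ^ 2) * (W v).im ≤ 0} = 0 := by
    have h9 : Tendsto (fun n : ℕ => ENNReal.ofReal (C * (1 / ((n : ℝ) + 1)))) atTop (𝓝 0) := by
      have h8 := (tendsto_one_div_add_atTop_nhds_zero_nat (𝕜 := ℝ)).const_mul C
      rw [mul_zero] at h8
      have h9 := ENNReal.tendsto_ofReal h8
      rwa [ENNReal.ofReal_zero] at h9
    refine le_antisymm (ge_of_tendsto h9 (Eventually.of_forall fun n => ?_)) bot_le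
    · refine le_trans (measure_mono fun v hv => ?_) (h5 (1 / ((n : ℝ) + 1)) (by positivity))
      have hv' : (1 + v 0 ^ 2) * (W v).im ≤ 0 := hv
      exact lt_of_le_of_lt hv' (by positivity)
  have h8 : ∀ᵐ v ∂(Pn ν (Fin d → ℤ)), ¬ ((1 + v 0 ^ 2) * (W v).im ≤ 0) := by
    rw [ae_iff]
    simpa using h7
  filter_upwards [h2, h8] with v hv1 hv2
  refine ⟨W v, hv1, ?_⟩
  by_contra hcon
  push Not at hcon
  apply hv2
  have : 0 < 1 + v 0 ^ 2 := by positivity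
  nlinarith

theorem el_of_lim {E : ℝ} {v : (Fin d → ℤ) → ℝ} {L : ℂ}
    (hL : Tendsto (fun n => Fg K η n E v) atTop (𝓝 L)) : el K η E v = ENNReal.ofReal L.im :=
  (ENNReal.tendsto_ofReal ((Complex.continuous_im.tendsto _).comp hL)).limsup_eq

theorem hd_of_lim {E : ℝ} {v : (Fin d → ℤ) → ℝ} {L : ℂ}
    (hL : Tendsto (fun n => Fg K η n E v) atTop (𝓝 L)) (h0 : 0 < L.im) :
    hd K η v E = L.im / Real.pi := by
  unfold hd
  rw [el_of_lim hL, ENNReal.toReal_ofReal h0.le]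

/-- Almost sure limits at almost all energies. -/
theorem ae_all (h : LapG K ν a b η₀) (hg : Good K ν a b η₀ η) :
    ∀ᵐ v ∂(Pn ν (Fin d → ℤ)), ∀ᵐ E ∂(volume.restrict (Set.Icc a b)),
      (∃ L, Tendsto (fun n => Fg K η n E v) atTop (𝓝 L)) ∧ 0 < el K η E v := by
  have hη := hg.1
  have hmeas : MeasurableSet {q : ℝ × ((Fin d → ℤ) → ℝ) |
      (∃ L, Tendsto (fun n => Fg K η n q.1 q.2) atTop (𝓝 L)) ∧ 0 < el K η q.1 q.2} := by
    have m1 : MeasurableSet {q : ℝ × ((Fin d → ℤ) → ℝ) |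
        ∃ L, Tendsto (fun n => Fg K η n q.1 q.2) atTop (𝓝 L)} :=
      MeasureTheory.measurableSet_exists_tendsto (l := atTop)
        (f := fun n (q : ℝ × ((Fin d → ℤ) → ℝ)) => Fg K η n q.1 q.2) fun n => Fg_joint K hη n
    exact m1.inter (measurableSet_lt measurable_const (el_joint K hη))
  rw [← Measure.ae_ae_comm hmeas]
  rw [ae_restrict_iff' measurableSet_Icc]
  refine ae_of_all _ fun E hE => ?_
  filter_upwards [ae_fix h hg hE.1 hE.2] with v hv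
  obtain ⟨L, hL, hL0⟩ := hv
  refine ⟨⟨L, hL⟩, ?_⟩
  rw [el_of_lim hL]
  exact ENNReal.ofReal_pos.2 hL0

/-- Summability of the differences. -/
theorem ae_sum (hg : Good K ν a b η₀ η) :
    ∀ᵐ v ∂(Pn ν (Fin d → ℤ)), Summable fun n : ℕ => ∫ E in Set.Icc a b,
      |(Fg K η (n + 1) E v).im - (Fg K η n E v).im| := by
  obtain ⟨hη, -, -, hs⟩ := hg
  have hj : ∀ n, Measurable fun q : ((Fin d → ℤ) → ℝ) × ℝ =>
      ‖Fg K η (n + 1) q.2 q.1 - Fg K η n q.2 q.1‖ₑ := fun n =>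
    ((((Fg_joint K hη (n + 1)).sub (Fg_joint K hη n)).comp measurable_swap)).enorm
  have hm : ∀ n, Measurable fun v : (Fin d → ℤ) → ℝ => ∫⁻ E in Set.Icc a b,
      ‖Fg K η (n + 1) E v - Fg K η n E v‖ₑ := fun n => (hj n).lintegral_prod_right'
  have h1 : ∫⁻ v, (∑' n, ∫⁻ E in Set.Icc a b, ‖Fg K η (n + 1) E v - Fg K η n E v‖ₑ)
      ∂(Pn ν (Fin d → ℤ)) ≠ ∞ := by
    rw [lintegral_tsum fun n => (hm n).aemeasurable]
    have h2 : ∀ n, ∫⁻ v, (∫⁻ E in Set.Icc a b, ‖Fg K η (n + 1) E v - Fg K η n E v‖ₑ)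
        ∂(Pn ν (Fin d → ℤ)) ≤ ENNReal.ofReal ((1 / 2) ^ n) * volume (Set.Icc a b) := by
      intro n
      rw [lintegral_lintegral_swap (hj n).aemeasurable]
      calc ∫⁻ E in Set.Icc a b, ∫⁻ v, ‖Fg K η (n + 1) E v - Fg K η n E v‖ₑ
            ∂(Pn ν (Fin d → ℤ))
          ≤ ∫⁻ _ in Set.Icc a b, ENNReal.ofReal ((1 / 2) ^ n) :=
            setLIntegral_mono measurable_const fun E hE => hs n E hE.1 hE.2
        _ = _ := by rw [lintegral_const, Measure.restrict_apply_univ]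
    refine ne_top_of_le_ne_top ?_ (ENNReal.tsum_le_tsum h2)
    rw [ENNReal.tsum_mul_right, Rf.tsum_half]
    exact ENNReal.mul_ne_top ENNReal.ofReal_ne_top (by rw [Real.volume_Icc]; exact ENNReal.ofReal_ne_top)
  filter_upwards [ae_lt_top (Measurable.tsum hm) h1] with v hv
  have h3 := ENNReal.summable_toReal hv.ne
  refine Summable.of_nonneg_of_le (fun n => by positivity) (fun n => ?_) h3
  have hfin : ∫⁻ E in Set.Icc a b, ‖Fg K η (n + 1) E v - Fg K η n E v‖ₑ ≠ ∞ :=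
    ne_top_of_le_ne_top hv.ne (ENNReal.le_tsum n)
  have hme : Measurable fun E : ℝ => |(Fg K η (n + 1) E v).im - (Fg K η n E v).im| := by
    have c1 := Fg_cont K hη (n + 1) v
    have c2 := Fg_cont K hη n v
    exact ((Complex.continuous_im.comp c1).sub (Complex.continuous_im.comp c2)).abs.measurable
  rw [integral_eq_lintegral_of_nonneg_ae (ae_of_all _ fun E => abs_nonneg _)
    hme.aestronglyMeasurable]
  refine ENNReal.toReal_mono hfin (lintegral_mono fun E => ?_)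
  rw [← ofReal_norm]
  refine ENNReal.ofReal_le_ofReal ?_
  rw [← Complex.sub_im]
  exact Complex.abs_im_le_norm _

/-- The density of the spectral measure. -/
theorem ae_density (hab : a < b) (h : LapG K ν a b η₀) (hg : Good K ν a b η₀ η) :
    ∀ᵐ v ∂(Pn ν (Fin d → ℤ)), (∀ᵐ E ∂(volume.restrict (Set.Ioo a b)), 0 < hd K η v E) ∧
      ∀ μ : Measure ℝ, IsFiniteMeasure μ →
      (∀ z : ℂ, 0 < z.im → gf K 1 v z = ∫ E : ℝ, 1 / ((E : ℂ) - z) ∂μ) →
      μ.restrict (Set.Ioo a b)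
        = (volume.restrict (Set.Ioo a b)).withDensity fun E => ENNReal.ofReal (hd K η v E) := by
  filter_upwards [ae_all h hg, ae_sum hg] with v hv1 hv2
  have hη := hg.1
  have hv3 : ∀ᵐ E ∂(volume.restrict (Set.Ioo a b)),
      (∃ L, Tendsto (fun n => Fg K η n E v) atTop (𝓝 L)) ∧ 0 < el K η E v :=
    ae_restrict_of_ae_restrict_of_subset Set.Ioo_subset_Icc_self hv1
  refine ⟨?_, fun μ hμ hz => ?_⟩
  · filter_upwards [hv3] with E hE
    obtain ⟨⟨L, hL⟩, hE2⟩ := hE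
    unfold hd
    rw [el_of_lim hL] at hE2 ⊢
    rw [ENNReal.toReal_ofReal (ENNReal.ofReal_pos.1 hE2).le]
    exact div_pos (ENNReal.ofReal_pos.1 hE2) Real.pi_pos
  · have hG : ∀ (n : ℕ) (E : ℝ), Pool.Agent.W465.WAAci.G μ (η n) E = (Fg K η n E v).im := by
      intro n E
      rw [← Pool.Agent.W465.WAAci.im_eq μ (hη n) E, ← hz ⟨E, η n⟩ (hη n)]
      rfl
    have hell : ∀ E, Pool.Agent.W465.WAAci.ell μ η E = el K η E v := by
      intro E
      unfold Pool.Agent.W465.WAAci.ell el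
      congr 1
      funext n
      rw [← Pool.Agent.W465.WAAci.F_eq μ (hη n) E, hG]
    have h1 := Dn.core' μ hab hη hg.2.2.1 (by simp only [hG]; exact hv2) (by
      filter_upwards [hv3] with E hE
      obtain ⟨⟨L, hL⟩, hE2⟩ := hE
      rw [el_of_lim hL] at hE2
      refine ⟨L.im, ENNReal.ofReal_pos.1 hE2, ?_⟩
      simp only [hG]
      exact (Complex.continuous_im.tendsto _).comp hL)
    rw [h1]
    congr 1
    funext E
    rw [hell]
    rfl

/-- Moments of the density. -/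
theorem hd_mom (h : LapG K ν a b η₀) (hg : Good K ν a b η₀ η) {p : ℕ} (hp : 1 ≤ p) :
    ∃ C : ℝ, 0 ≤ C ∧ (∀ E, a ≤ E → E ≤ b →
      Integrable (fun v => hd K η v E ^ p) (Pn ν (Fin d → ℤ)) ∧
      ∫ v, hd K η v E ^ p ∂(Pn ν (Fin d → ℤ)) ≤ C) ∧
      ∀ E, a ≤ E → E ≤ b → ∀ t : ℝ, 0 < t →
        ((Pn ν (Fin d → ℤ)) {v | (1 + v 0 ^ 2) * hd K η v E < t}).toReal ≤ C * t ^ p := by
  obtain ⟨hη, hη0, hηt, hs⟩ := hg
  obtain ⟨⟨C1, h1⟩, -, C3, hC3, h3⟩ := h p hp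
  have hpi := Real.pi_pos
  have hC10 : 0 ≤ |C1| := abs_nonneg _
  refine ⟨|C1| + C3 * Real.pi ^ p, by positivity, fun E ha hb => ?_, fun E ha hb t ht => ?_⟩
  · have hfix := ae_fix h ⟨hη, hη0, hηt, hs⟩ ha hb
    have hmeas : Measurable fun v : (Fin d → ℤ) → ℝ => hd K η v E :=
      (hd_joint K hη).of_uncurry_right
    have hnn : ∀ v : (Fin d → ℤ) → ℝ, 0 ≤ hd K η v E := fun v =>
      div_nonneg ENNReal.toReal_nonneg hpi.le
    have hmom : ∫⁻ v, ENNReal.ofReal (hd K η v E ^ p) ∂(Pn ν (Fin d → ℤ))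
        ≤ ENNReal.ofReal |C1| := by
      refine Rf.mom_lim (X := fun v => hd K η v E ^ p) (C := ENNReal.ofReal |C1|)
        (V := fun n v => ((Fg K η n E v).im / Real.pi) ^ p) (fun n => ?_) ?_ (fun n => ?_)
      · exact ((Complex.measurable_im.comp (Fg_meas K hη n E)).div_const _).pow_const p
      · filter_upwards [hfix] with v hv
        obtain ⟨L, hL, hL0⟩ := hv
        rw [hd_of_lim hL hL0]
        exact (((Complex.continuous_im.tendsto _).comp hL).div_const _).pow p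
      · have i1 := gf_int K ν (hη n) p (z := ⟨E, η n⟩)
        have h5 := h1 ⟨E, η n⟩ ⟨ha, hb, hη n, hη0 n⟩
        calc ∫⁻ v, ENNReal.ofReal (((Fg K η n E v).im / Real.pi) ^ p) ∂(Pn ν (Fin d → ℤ))
            ≤ ∫⁻ v, ENNReal.ofReal (‖gf K 1 v ⟨E, η n⟩‖ ^ p) ∂(Pn ν (Fin d → ℤ)) := by
              refine lintegral_mono fun v => ENNReal.ofReal_le_ofReal ?_
              have g1 := (gf_facts K v (hη n) (z := ⟨E, η n⟩)).1
              have g2 := (le_abs_self _).trans (Complex.abs_im_le_norm (gf K 1 v ⟨E, η n⟩))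
              refine pow_le_pow_left₀ (div_nonneg g1 hpi.le) ?_ p
              refine (div_le_self g1 ?_).trans g2
              linarith [Real.pi_gt_three]
          _ = ENNReal.ofReal (∫ v, ‖gf K 1 v ⟨E, η n⟩‖ ^ p ∂(Pn ν (Fin d → ℤ))) :=
              (ofReal_integral_eq_lintegral_ofReal i1 (ae_of_all _ fun v => by positivity)).symm
          _ ≤ ENNReal.ofReal |C1| := ENNReal.ofReal_le_ofReal (h5.trans (le_abs_self _))
    have hae : 0 ≤ᵐ[Pn ν (Fin d → ℤ)] fun v => hd K η v E ^ p :=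
      ae_of_all _ fun v => pow_nonneg (hnn v) p
    have hint : Integrable (fun v => hd K η v E ^ p) (Pn ν (Fin d → ℤ)) :=
      (lintegral_ofReal_ne_top_iff_integrable (hmeas.pow_const p).aestronglyMeasurable hae).1
        (ne_top_of_le_ne_top ENNReal.ofReal_ne_top hmom)
    refine ⟨hint, ?_⟩
    rw [integral_eq_lintegral_of_nonneg_ae hae (hmeas.pow_const p).aestronglyMeasurable]
    have h6 := ENNReal.toReal_mono ENNReal.ofReal_ne_top hmom
    rw [ENNReal.toReal_ofReal (abs_nonneg _)] at h6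
    have : 0 ≤ C3 * Real.pi ^ p := by positivity
    linarith
  · have hfix := ae_fix h ⟨hη, hη0, hηt, hs⟩ ha hb
    have h5 : (Pn ν (Fin d → ℤ)) {v | (1 + v 0 ^ 2) * hd K η v E < t}
        ≤ ENNReal.ofReal (C3 * (Real.pi * t) ^ p) := by
      refine Rf.small_lim (W := fun v => (1 + v 0 ^ 2) * hd K η v E)
        (V := fun n v => (1 + v 0 ^ 2) * ((Fg K η n E v).im / Real.pi))
        (c := ENNReal.ofReal (C3 * (Real.pi * t) ^ p)) ?_ fun n => ?_
      · filter_upwards [hfix] with v hv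
        obtain ⟨L, hL, hL0⟩ := hv
        rw [hd_of_lim hL hL0]
        exact (((Complex.continuous_im.tendsto _).comp hL).div_const _).const_mul _
      · have h6 := h3 ⟨E, η n⟩ ⟨ha, hb, hη n, hη0 n⟩ (Real.pi * t) (by positivity)
        refine le_trans (le_of_eq ?_) (ofReal_toReal_le (measure_ne_top _ _) h6)
        congr 1
        ext v
        rw [Set.mem_ofPred_eq, Set.mem_ofPred_eq, ← mul_div_assoc, div_lt_iff₀ hpi, mul_comm t]
        rfl
    have h6 := ENNReal.toReal_mono ENNReal.ofReal_ne_top h5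
    rw [ENNReal.toReal_ofReal (by positivity)] at h6
    refine h6.trans ?_
    rw [mul_pow]
    have h7 : 0 ≤ |C1| * t ^ p := by positivity
    nlinarith

end

end Pool.Agent.U281.LAP
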