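import Pool.Agent.U281.LAP.Den

/-!
The boundary values of the Green function at the origin.
-/

set_option autoImplicit false

namespace Pool.Agent.U281.LAP

open MeasureTheory Filter Pool.Agent.W792.LL Pool.Agent.W792.WA Pool.Agent.U281.GEN
open scoped Topology ENNReal

noncomputable section

variable {d : ℕ}

/-- The boundary value. -/
def G0 (K : C(UnitAddTorus (Fin d), ℝ)) (η : ℕ → ℝ) (v : (Fin d → ℤ) → ℝ) (E : ℝ) : ℂ :=
  limUnder atTop fun n => Fg K η n E v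

theorem G0_joint (K : C(UnitAddTorus (Fin d), ℝ)) {η : ℕ → ℝ} (hη : ∀ n, 0 < η n) :
    Measurable (Function.uncurry fun (v : (Fin d → ℤ) → ℝ) (E : ℝ) => G0 K η v E) := by
  have h1 : ∀ n, StronglyMeasurable fun q : ((Fin d → ℤ) → ℝ) × ℝ => Fg K η n q.2 q.1 :=
    fun n => ((Fg_joint K hη n).comp measurable_swap).stronglyMeasurable
  exact (StronglyMeasurable.limUnder (l := atTop) h1).measurable

variable {K : C(UnitAddTorus (Fin d), ℝ)} {ν : Measure ℝ} [IsProbabilityMeasure ν]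
  {a b η₀ : ℝ} {η : ℕ → ℝ}

theorem G0_lim {E : ℝ} {v : (Fin d → ℤ) → ℝ} {L : ℂ}
    (hL : Tendsto (fun n => Fg K η n E v) atTop (𝓝 L)) : G0 K η v E = L := hL.limUnder_eq

theorem G0_fix (h : LapG K ν a b η₀) (hg : Good K ν a b η₀ η) {E : ℝ} (ha : a ≤ E) (hb : E ≤ b) :
    ∀ᵐ v ∂(Pn ν (Fin d → ℤ)), Tendsto (fun n => Fg K η n E v) atTop (𝓝 (G0 K η v E)) := by
  filter_upwards [ae_fix h hg ha hb] with v hv
  obtain ⟨L, hL, hL0⟩ := hv
  rw [G0_lim hL]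
  exact hL

/-- General estimate for limits. -/
theorem lim_pow {X : ((Fin d → ℤ) → ℝ) → ℂ} {V : ℕ → ((Fin d → ℤ) → ℝ) → ℂ} {p : ℕ}
    (hX : Measurable X) (hm : ∀ n, Measurable (V n))
    (hi : ∀ n, Integrable (fun v => ‖V n v‖ ^ p) (Pn ν (Fin d → ℤ)))
    (h : ∀ᵐ v ∂(Pn ν (Fin d → ℤ)), Tendsto (fun n => V n v) atTop (𝓝 (X v))) {C : ℝ}
    (hC0 : 0 ≤ C) (hC : ∀ n, ∫ v, ‖V n v‖ ^ p ∂(Pn ν (Fin d → ℤ)) ≤ C) :
    Integrable (fun v => ‖X v‖ ^ p) (Pn ν (Fin d → ℤ)) ∧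
      ∫ v, ‖X v‖ ^ p ∂(Pn ν (Fin d → ℤ)) ≤ C := by
  have hmom : ∫⁻ v, ENNReal.ofReal (‖X v‖ ^ p) ∂(Pn ν (Fin d → ℤ)) ≤ ENNReal.ofReal C := by
    refine Rf.mom_lim (X := fun v => ‖X v‖ ^ p) (C := ENNReal.ofReal C)
      (V := fun n v => ‖V n v‖ ^ p) (fun n => (hm n).norm.pow_const p) ?_ (fun n => ?_)
    · filter_upwards [h] with v hv
      exact hv.norm.pow p
    · rw [← ofReal_integral_eq_lintegral_ofReal (hi n) (ae_of_all _ fun v => by positivity)]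
      exact ENNReal.ofReal_le_ofReal (hC n)
  have hae : 0 ≤ᵐ[Pn ν (Fin d → ℤ)] fun v => ‖X v‖ ^ p := ae_of_all _ fun v => by positivity
  have hmeas : Measurable fun v => ‖X v‖ ^ p := hX.norm.pow_const p
  refine ⟨(lintegral_ofReal_ne_top_iff_integrable hmeas.aestronglyMeasurable hae).1
    (ne_top_of_le_ne_top ENNReal.ofReal_ne_top hmom), ?_⟩
  rw [integral_eq_lintegral_of_nonneg_ae hae hmeas.aestronglyMeasurable]
  have h6 := ENNReal.toReal_mono ENNReal.ofReal_ne_top hmom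
  rwa [ENNReal.toReal_ofReal hC0] at h6

/-- Moments of the boundary values. -/
theorem G0_mom (h : LapG K ν a b η₀) (hg : Good K ν a b η₀ η) {p : ℕ} (hp : 1 ≤ p) :
    ∃ C : ℝ, 0 ≤ C ∧ (∀ E, a ≤ E → E ≤ b →
      Integrable (fun v => ‖G0 K η v E‖ ^ p) (Pn ν (Fin d → ℤ)) ∧
      ∫ v, ‖G0 K η v E‖ ^ p ∂(Pn ν (Fin d → ℤ)) ≤ C) ∧
      ∀ E, a ≤ E → E ≤ b → ∀ t : ℝ, 0 < t →
        ((Pn ν (Fin d → ℤ)) {v | (1 + v 0 ^ 2) * (G0 K η v E).im < t}).toReal ≤ C * t ^ p := by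
  obtain ⟨hη, hη0, hηt, hs⟩ := hg
  obtain ⟨⟨C1, h1⟩, -, C3, hC3, h3⟩ := h p hp
  have hC10 : 0 ≤ |C1| := abs_nonneg _
  refine ⟨|C1| + C3, by positivity, fun E ha hb => ?_, fun E ha hb t ht => ?_⟩
  · have hfix := G0_fix h ⟨hη, hη0, hηt, hs⟩ ha hb
    have h5 := lim_pow (X := fun v => G0 K η v E) (V := fun n v => Fg K η n E v) (p := p)
      (G0_joint K hη).of_uncurry_right (fun n => Fg_meas K hη n E)
      (fun n => gf_int K ν (hη n) p (z := ⟨E, η n⟩)) hfix hC10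
      (fun n => (h1 ⟨E, η n⟩ ⟨ha, hb, hη n, hη0 n⟩).trans (le_abs_self _))
    exact ⟨h5.1, h5.2.trans (by linarith)⟩
  · have hfix := G0_fix h ⟨hη, hη0, hηt, hs⟩ ha hb
    have h5 : (Pn ν (Fin d → ℤ)) {v | (1 + v 0 ^ 2) * (G0 K η v E).im < t}
        ≤ ENNReal.ofReal (C3 * t ^ p) := by
      refine Rf.small_lim (W := fun v => (1 + v 0 ^ 2) * (G0 K η v E).im)
        (V := fun n v => (1 + v 0 ^ 2) * (Fg K η n E v).im)
        (c := ENNReal.ofReal (C3 * t ^ p)) ?_ fun n => ?_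
      · filter_upwards [hfix] with v hv
        exact ((Complex.continuous_im.tendsto _).comp hv).const_mul _
      · exact ofReal_toReal_le (measure_ne_top _ _)
          (h3 ⟨E, η n⟩ ⟨ha, hb, hη n, hη0 n⟩ t ht)
    have h6 := ENNReal.toReal_mono ENNReal.ofReal_ne_top h5
    rw [ENNReal.toReal_ofReal (by positivity)] at h6
    refine h6.trans ?_
    have h7 : 0 ≤ |C1| * t ^ p := by positivity
    nlinarith

/-- Convergence to the boundary values. -/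
theorem G0_conv (h : LapG K ν a b η₀) (hg : Good K ν a b η₀ η) {p : ℕ} (hp : 1 ≤ p) {e : ℝ}
    (he : 0 < e) : ∃ θ : ℝ, 0 < θ ∧ ∀ z ∈ St a b η₀, z.im ≤ θ →
      Integrable (fun v => ‖gf K 1 v z - G0 K η v z.re‖ ^ p) (Pn ν (Fin d → ℤ)) ∧
      ∫ v, ‖gf K 1 v z - G0 K η v z.re‖ ^ p ∂(Pn ν (Fin d → ℤ)) ≤ e := by
  obtain ⟨hη, hη0, hηt, hs⟩ := hg
  obtain ⟨-, h2, -⟩ := h p hp
  obtain ⟨θ, hθ, hθ1⟩ := h2 e he
  refine ⟨θ, hθ, fun z hz hzθ => ?_⟩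
  obtain ⟨N, hN⟩ := (hηt.eventually_lt_const hθ).exists_forall_of_atTop
  have hfix := G0_fix h ⟨hη, hη0, hηt, hs⟩ hz.1 hz.2.1
  have hz2 := hz.2.2.1
  refine lim_pow (X := fun v => gf K 1 v z - G0 K η v z.re)
    (V := fun n v => gf K 1 v z - Fg K η (n + N) z.re v)
    ((gf_meas K hz2).sub (G0_joint K hη).of_uncurry_right)
    (fun n => (gf_meas K hz2).sub (Fg_meas K hη _ _))
    (fun n => gf_int_sub K ν hz2 (hη (n + N)) p (z' := ⟨z.re, η (n + N)⟩)) ?_ he.le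
    (fun n => ?_)
  · filter_upwards [hfix] with v hv
    exact tendsto_const_nhds.sub (hv.comp (tendsto_add_atTop_nat N))
  · refine hθ1 z hz ⟨z.re, η (n + N)⟩ ⟨hz.1, hz.2.1, hη _, hη0 _⟩ ?_
    have e1 : z - ⟨z.re, η (n + N)⟩ = ((z.im - η (n + N) : ℝ) : ℂ) * Complex.I := by
      apply Complex.ext <;> simp
    rw [e1, norm_mul, Complex.norm_I, mul_one, Complex.norm_real, Real.norm_eq_abs, abs_le]
    have := hN (n + N) (by omega)
    have := hη (n + N)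
    constructor <;> linarith

/-- The density in terms of the boundary values. -/
theorem G0_density (hab : a < b) (h : LapG K ν a b η₀) (hg : Good K ν a b η₀ η) :
    ∀ᵐ v ∂(Pn ν (Fin d → ℤ)),
      (∀ᵐ E ∂(volume.restrict (Set.Ioo a b)), 0 < (G0 K η v E).im / Real.pi) ∧
      ∀ μ : Measure ℝ, IsFiniteMeasure μ →
      (∀ z : ℂ, 0 < z.im → gf K 1 v z = ∫ E : ℝ, 1 / ((E : ℂ) - z) ∂μ) →
      μ.restrict (Set.Ioo a b) = (volume.restrict (Set.Ioo a b)).withDensity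
        fun E => ENNReal.ofReal ((G0 K η v E).im / Real.pi) := by
  filter_upwards [ae_density hab h hg, ae_all h hg] with v hv1 hv2
  have h3 : ∀ᵐ E ∂(volume.restrict (Set.Ioo a b)), hd K η v E = (G0 K η v E).im / Real.pi := by
    filter_upwards [ae_restrict_of_ae_restrict_of_subset Set.Ioo_subset_Icc_self hv2] with E hE
    obtain ⟨⟨L, hL⟩, hE2⟩ := hE
    rw [el_of_lim hL] at hE2
    rw [G0_lim hL, hd_of_lim hL (ENNReal.ofReal_pos.1 hE2)]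
  refine ⟨?_, fun μ hμ hz => ?_⟩
  · filter_upwards [h3, hv1.1] with E hE1 hE2
    rwa [← hE1]
  · rw [hv1.2 μ hμ hz]
    refine withDensity_congr_ae ?_
    filter_upwards [h3] with E hE
    rw [hE]

end

end Pool.Agent.U281.LAP
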