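import Pool.Agent.U281.LAP.Gr

/-!
The resolvent for an arbitrary real potential.
-/

set_option autoImplicit false

namespace Pool.Agent.U281.LAP

open MeasureTheory Filter Pool.Agent.W792.LL Pool.Agent.W792.WA Pool.Agent.U281.GEN
  Pool.Agent.W19.WAPsi
open scoped Topology

noncomputable section

variable {d : ℕ}

/-- `W` solves `(K + v - z) W = f`. -/
def IsW (K : C(UnitAddTorus (Fin d), ℝ)) (v : (Fin d → ℤ) → ℝ) (z : ℂ) (f W : l2 (Fin d → ℤ)) :
    Prop := ∀ x, (v x : ℂ) * W x = (z • W + f - opr (cR K) W : l2 (Fin d → ℤ)) x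

/-- The resolvent. -/
def Gv (K : C(UnitAddTorus (Fin d), ℝ)) (v : (Fin d → ℤ) → ℝ) (z : ℂ) (f : l2 (Fin d → ℤ)) :
    l2 (Fin d → ℤ) := Gop (us (Measure.dirac 0) 1 z K) v f

/-- The symbol `K - z - i`. -/
def sA (K : C(UnitAddTorus (Fin d), ℝ)) (z : ℂ) : C(UnitAddTorus (Fin d), ℂ) :=
  cR K - (z + Complex.I) • 1

/-- The symbol `K - z + i`. -/
def sB (K : C(UnitAddTorus (Fin d), ℝ)) (z : ℂ) : C(UnitAddTorus (Fin d), ℂ) :=
  cR K - (z - Complex.I) • 1

theorem us_sA (K : C(UnitAddTorus (Fin d), ℝ)) {z : ℂ} (hz : 0 < z.im) :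
    us (Measure.dirac 0) 1 z K * sA K z = sB K z := by
  ext k
  have h1 := Ch.us_dirac Al.cx K hz.le k
  rw [ContinuousMap.mul_apply, h1]
  unfold sA sB cayx
  simp only [ContinuousMap.sub_apply, ContinuousMap.smul_apply, ContinuousMap.one_apply,
    smul_eq_mul, mul_one, cR_apply, Complex.ofReal_zero, add_zero]
  have hne : (K k : ℂ) - z - Complex.I ≠ 0 := by
    intro h
    have := congrArg Complex.im h
    simp at this
    linarith
  have e : (K k : ℂ) - (z + Complex.I) = (K k : ℂ) - z - Complex.I := by ring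
  rw [e, div_mul_cancel₀ _ hne]
  ring

theorem opr_sA (K : C(UnitAddTorus (Fin d), ℝ)) (z : ℂ) (W : l2 (Fin d → ℤ)) :
    opr (sA K z) W = opr (cR K) W - (z + Complex.I) • W := by
  unfold sA
  rw [opr_sub, opr_smul, opr_one]
  rfl

theorem opr_sB (K : C(UnitAddTorus (Fin d), ℝ)) (z : ℂ) (W : l2 (Fin d → ℤ)) :
    opr (sB K z) W = opr (cR K) W - (z - Complex.I) • W := by
  unfold sB
  rw [opr_sub, opr_smul, opr_one]
  rfl

theorem opr_us_sA (K : C(UnitAddTorus (Fin d), ℝ)) {z : ℂ} (hz : 0 < z.im)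
    (W : l2 (Fin d → ℤ)) :
    opr (us (Measure.dirac 0) 1 z K) (opr (sA K z) W) = opr (sB K z) W := by
  rw [← us_sA K hz, opr_mul]
  rfl

theorem sA_opr_us (K : C(UnitAddTorus (Fin d), ℝ)) {z : ℂ} (hz : 0 < z.im)
    (W : l2 (Fin d → ℤ)) :
    opr (sA K z) (opr (us (Measure.dirac 0) 1 z K) W) = opr (sB K z) W := by
  rw [← us_sA K hz, mul_comm, opr_mul]
  rfl

theorem vI_ne (t : ℝ) : (t : ℂ) - Complex.I ≠ 0 := by
  intro h
  have := congrArg Complex.im h
  simp at this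

theorem isW_eq {K : C(UnitAddTorus (Fin d), ℝ)} {v : (Fin d → ℤ) → ℝ} {z : ℂ} (hz : 0 < z.im)
    {f W : l2 (Fin d → ℤ)} (h : IsW K v z f W) : W = Gv K v z f := by
  obtain ⟨m, hm⟩ : ∃ m, m = us (Measure.dirac 0) 1 z K := ⟨_, rfl⟩
  have hm1 : ‖m‖ < 1 := by rw [hm]; exact us_lt Al.cx K hz
  obtain ⟨P, hP⟩ : ∃ P, P = f - opr (sB K z) W := ⟨_, rfl⟩
  obtain ⟨Q, hQ⟩ : ∃ Q, Q = f - opr (sA K z) W := ⟨_, rfl⟩
  have eP : ∀ x, P x = ((v x : ℂ) - Complex.I) * W x := by
    intro x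
    rw [sub_mul, h x, hP, opr_sB]
    simp only [lp.coeFn_sub, lp.coeFn_add, lp.coeFn_smul, Pi.sub_apply, Pi.add_apply,
      Pi.smul_apply, smul_eq_mul]
    ring
  have eQ : ∀ x, Q x = ((v x : ℂ) + Complex.I) * W x := by
    intro x
    rw [add_mul, h x, hQ, opr_sA]
    simp only [lp.coeFn_sub, lp.coeFn_add, lp.coeFn_smul, Pi.sub_apply, Pi.add_apply,
      Pi.smul_apply, smul_eq_mul]
    ring
  have hdc : dc v P = Q := by
    ext x
    rw [dc_apply, eP, eQ]
    unfold cay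
    have := vI_ne (v x)
    field_simp
  have h1 : P - opr m Q = f - opr m f := by
    rw [hQ, map_sub, hm, opr_us_sA K hz, hP]
    abel
  obtain ⟨-, -, r2⟩ := (Al.csym (Measure.dirac 0) d m hm1).1 v
  have h2 : rsv m v (P - opr m (dc v P)) = P := by
    have e := congrArg (fun T : l2 (Fin d → ℤ) →L[ℂ] l2 (Fin d → ℤ) => T P) r2
    exact e
  rw [hdc, h1] at h2
  unfold Gv Gop
  rw [← hm, h2, hdc]
  have e3 : P - Q = (-2 * Complex.I) • W := by
    rw [hP, hQ, opr_sA, opr_sB]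
    have : (-2 * Complex.I) • W = (z - Complex.I) • W - (z + Complex.I) • W := by
      rw [← sub_smul]
      congr 1
      ring
    rw [this]
    abel
  rw [e3, smul_smul]
  have : Complex.I / 2 * (-2 * Complex.I) = 1 := by
    have := Complex.I_mul_I
    linear_combination (-1 : ℂ) * this
  rw [this, one_smul]

theorem isW_Gv (K : C(UnitAddTorus (Fin d), ℝ)) (v : (Fin d → ℤ) → ℝ) {z : ℂ} (hz : 0 < z.im)
    (f : l2 (Fin d → ℤ)) : IsW K v z f (Gv K v z f) := by
  obtain ⟨m, hm⟩ : ∃ m, m = us (Measure.dirac 0) 1 z K := ⟨_, rfl⟩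
  have hm1 : ‖m‖ < 1 := by rw [hm]; exact us_lt Al.cx K hz
  obtain ⟨W, hW⟩ : ∃ W, W = Gv K v z f := ⟨_, rfl⟩
  obtain ⟨p, hp⟩ : ∃ p, p = rsv m v (f - opr m f) := ⟨_, rfl⟩
  have e1 : p = (f - opr m f) + opr m (dc v p) := by
    rw [hp]
    exact psv_eq Al.csym m hm1 (f - opr m f) v
  have e2 : W = (Complex.I / 2) • (p - dc v p) := by
    rw [hW, hp]
    unfold Gv Gop
    rw [← hm]
  have e3 : dc v p = p + (2 * Complex.I) • W := by
    rw [e2, smul_smul]
    have : 2 * Complex.I * (Complex.I / 2) = -1 := by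
      have := Complex.I_mul_I
      linear_combination this
    rw [this, neg_smul, one_smul]
    abel
  -- apply `K - z - i`
  have e4 : p = f - opr (sB K z) W := by
    have h1 : opr (sA K z) p = opr (sA K z) ((f - opr m f) + opr m (dc v p)) := by rw [← e1]
    rw [map_add, map_sub, hm, sA_opr_us K hz, sA_opr_us K hz, e3, map_add, map_smul, opr_sA,
      opr_sA] at h1
    rw [opr_sB K z p, opr_sB K z f] at h1
    -- h1 : K p - (z+i) p = (K f - (z+i) f - (K f - (z-i) f)) + (K p - (z-i) p + 2i B W)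
    have h2 : (2 * Complex.I) • p = (2 * Complex.I) • (f - opr (sB K z) W) := by
      rw [smul_sub]
      have e5 : ∀ y : l2 (Fin d → ℤ), (2 * Complex.I) • y
          = (z + Complex.I) • y - (z - Complex.I) • y := by
        intro y
        rw [← sub_smul]
        congr 1
        ring
      rw [e5 p, e5 f]
      have h3 : opr (cR K) p - (z + Complex.I) • p
          - (opr (cR K) p - (z - Complex.I) • p + (2 * Complex.I) • opr (sB K z) W)
          = opr (cR K) f - (z + Complex.I) • f - (opr (cR K) f - (z - Complex.I) • f) := by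
        rw [h1]
        abel
      have h4 : (z + Complex.I) • p - (z - Complex.I) • p
          = -(opr (cR K) p - (z + Complex.I) • p
          - (opr (cR K) p - (z - Complex.I) • p + (2 * Complex.I) • opr (sB K z) W))
            - (2 * Complex.I) • opr (sB K z) W := by abel
      rw [h4, h3]
      abel
    have hI : (2 * Complex.I) ≠ 0 := by simp
    have h3 := congrArg (fun y => (2 * Complex.I)⁻¹ • y) h2
    simp only [smul_smul, inv_mul_cancel₀ hI, one_smul] at h3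
    exact h3
  rw [← hW]
  intro x
  have e5 : W x = (Complex.I / 2) * (p x - cay (v x) * p x) := by
    conv_lhs => rw [e2]
    simp only [lp.coeFn_sub, lp.coeFn_smul, Pi.sub_apply, Pi.smul_apply, smul_eq_mul, dc_apply]
  have e6 : p x = ((v x : ℂ) - Complex.I) * W x := by
    rw [e5]
    unfold cay
    have h1 := vI_ne (v x)
    have h2 := Complex.I_mul_I
    field_simp
    linear_combination (2 * p x) * h2
  have e7 : (v x : ℂ) * W x = p x + Complex.I * W x := by rw [e6]; ring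
  rw [e7, e4, opr_sB]
  simp only [lp.coeFn_sub, lp.coeFn_add, lp.coeFn_smul, Pi.sub_apply, Pi.add_apply,
    Pi.smul_apply, smul_eq_mul]
  ring

theorem isW_iff (K : C(UnitAddTorus (Fin d), ℝ)) (v : (Fin d → ℤ) → ℝ) {z : ℂ} (hz : 0 < z.im)
    (f W : l2 (Fin d → ℤ)) : IsW K v z f W ↔ W = Gv K v z f :=
  ⟨isW_eq hz, fun h => h ▸ isW_Gv K v hz f⟩

theorem dl_at (x y : Fin d → ℤ) : (dl x : l2 (Fin d → ℤ)) y = if y = x then 1 else 0 := by
  unfold dl
  by_cases hx : y = x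
  · subst hx; simp
  · simp [hx]

/-- Solutions as functions. -/
theorem sol_iff_isW (K : C(UnitAddTorus (Fin d), ℝ)) (v : (Fin d → ℤ) → ℝ) (z : ℂ)
    (x : Fin d → ℤ) (w : (Fin d → ℤ) → ℂ) (hs : Summable fun y => ‖w y‖ ^ 2) :
    Sol (hopK K) 1 v z x w ↔ IsW K v z (dl x) (tol2 w hs) := by
  have e1 : ∀ y, (z • tol2 w hs + dl x - opr (cR K) (tol2 w hs) : l2 (Fin d → ℤ)) y
      = z * w y + (if y = x then 1 else 0) - ∑' y', hopK K (y - y') * w y' := by
    intro y
    have e0 : (z • tol2 w hs + dl x - opr (cR K) (tol2 w hs) : l2 (Fin d → ℤ)) y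
        = z * w y + (dl x : l2 (Fin d → ℤ)) y - opr (cR K) (tol2 w hs) y := by
      simp only [lp.coeFn_sub, lp.coeFn_add, lp.coeFn_smul, Pi.sub_apply, Pi.add_apply,
        Pi.smul_apply, smul_eq_mul]
      rfl
    rw [e0, dl_at, T_apply Al.opr]
    rfl
  have e2 : ∀ y, (tol2 w hs : l2 (Fin d → ℤ)) y = w y := fun y => rfl
  unfold Sol IsW
  constructor
  · rintro ⟨-, h⟩ y
    rw [e1, e2, ← h y]
    push_cast
    ring
  · intro h
    refine ⟨hs, fun y => ?_⟩
    have h1 := h y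
    rw [e1, e2] at h1
    push_cast
    linear_combination h1

theorem sol_iff_Gv (K : C(UnitAddTorus (Fin d), ℝ)) (v : (Fin d → ℤ) → ℝ) {z : ℂ}
    (hz : 0 < z.im) (x : Fin d → ℤ) (w : (Fin d → ℤ) → ℂ) :
    Sol (hopK K) 1 v z x w ↔ w = fun y => Gv K v z (dl x) y := by
  have hG : Summable fun y => ‖Gv K v z (dl x) y‖ ^ 2 := by
    have h := (memℓp_gen_iff (by norm_num : 0 < (2 : ENNReal).toReal)).1
      (lp.memℓp (Gv K v z (dl x)))
    simpa using h
  constructor
  · intro h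
    have h1 := isW_eq hz ((sol_iff_isW K v z x w h.1).1 h)
    funext y
    rw [← h1]
    rfl
  · intro h
    subst h
    rw [sol_iff_isW K v z x _ hG]
    exact isW_Gv K v hz (dl x)

/-- Green's identity. -/
theorem green_id (K : C(UnitAddTorus (Fin d), ℝ)) (v : (Fin d → ℤ) → ℝ) (z : ℂ)
    {f g A B : l2 (Fin d → ℤ)} (hA : IsW K v z f A) (hB : IsW K v z g B) :
    z * inner ℂ A B + inner ℂ A g = (starRingEnd ℂ) z * inner ℂ A B + inner ℂ f B := by
  have h1 : (inner ℂ A (z • B + g - opr (cR K) B) : ℂ)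
      = inner ℂ (z • A + f - opr (cR K) A) B := by
    rw [lp.inner_eq_tsum, lp.inner_eq_tsum]
    refine tsum_congr fun x => ?_
    rw [← hA x, ← hB x]
    simp only [RCLike.inner_apply, map_mul, Complex.conj_ofReal]
    ring
  rw [inner_sub_right, inner_sub_left, inner_add_right, inner_add_left, inner_smul_right,
    inner_smul_left, T_symm Al.symb] at h1
  linear_combination h1

theorem im_norm (K : C(UnitAddTorus (Fin d), ℝ)) (v : (Fin d → ℤ) → ℝ) {z : ℂ} (hz : 0 < z.im)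
    (x : Fin d → ℤ) : z.im * ‖Gv K v z (dl x)‖ ^ 2 = (Gv K v z (dl x) x).im := by
  have hW := isW_Gv K v hz (dl x)
  have h1 := green_id K v z hW hW
  obtain ⟨W, hWd⟩ : ∃ W, W = Gv K v z (dl x) := ⟨_, rfl⟩
  rw [← hWd] at h1 ⊢
  have e0 : (inner ℂ (dl x) W : ℂ) = W x := (coord_inner x W).symm
  have e1 : (inner ℂ W (dl x) : ℂ) = (starRingEnd ℂ) (W x) := by
    rw [← inner_conj_symm, coord_inner x W]
    rfl
  rw [e0, e1, inn_self] at h1
  have h2 := congrArg Complex.im h1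
  rw [Complex.add_im, Complex.add_im, Complex.im_mul_ofReal, Complex.im_mul_ofReal,
    Complex.conj_im, Complex.conj_im] at h2
  linarith

/-- Off-diagonal elements of the imaginary part. -/
theorem off_le (K : C(UnitAddTorus (Fin d), ℝ)) (v : (Fin d → ℤ) → ℝ) {z : ℂ} (hz : 0 < z.im)
    (x y : Fin d → ℤ) : ‖(z.im : ℂ) * inner ℂ (Gv K v z (dl x)) (Gv K v z (dl y))‖
      ≤ (Gv K v z (dl x) x).im + (Gv K v z (dl y) y).im := by
  rw [← im_norm K v hz x, ← im_norm K v hz y, norm_mul, Complex.norm_real,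
    Real.norm_of_nonneg hz.le]
  have h1 := norm_inner_le_norm (𝕜 := ℂ) (Gv K v z (dl x)) (Gv K v z (dl y))
  have h2 := norm_nonneg (Gv K v z (dl x))
  have h3 := norm_nonneg (Gv K v z (dl y))
  calc z.im * _ ≤ z.im * (‖Gv K v z (dl x)‖ * ‖Gv K v z (dl y)‖) :=
        mul_le_mul_of_nonneg_left h1 hz.le
    _ ≤ z.im * (‖Gv K v z (dl x)‖ ^ 2 + ‖Gv K v z (dl y)‖ ^ 2) := by
        refine mul_le_mul_of_nonneg_left ?_ hz.le
        nlinarith [sq_nonneg (‖Gv K v z (dl x)‖ - ‖Gv K v z (dl y)‖)]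
    _ = _ := by ring

/-- The diagonal elements. -/
theorem Gv_diag (K : C(UnitAddTorus (Fin d), ℝ)) (v : (Fin d → ℤ) → ℝ) {z : ℂ} (hz : 0 < z.im)
    (x : Fin d → ℤ) : Gv K v z (dl x) x = gf K 1 (fun y => v (y + x)) z := by
  obtain ⟨w, hw, hw0⟩ := gf_sol K (fun y => v (y + x)) hz
  have hsh := (Pool.Agent.W156.WAFin.hS d (hopK K) 1 (fun _ => True) (by simp)).2
  have h1 : Sol (hopK K) 1 v z x (fun y => w (y - x)) := by
    refine (hsh v z x _).2 ?_
    have : (fun y => w (y + x - x)) = w := by funext y; rw [add_sub_cancel_right]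
    rw [this]
    exact hw
  have h2 := (sol_iff_Gv K v hz x _).1 h1
  have h3 := congrFun h2 x
  simp only [sub_self] at h3
  rw [← h3, hw0]

/-- Measurability. -/
theorem Gv_bm (K : C(UnitAddTorus (Fin d), ℝ)) {z : ℂ} (hz : 0 < z.im) (f : l2 (Fin d → ℤ)) :
    BM fun v : (Fin d → ℤ) → ℝ => Gv K v z f := gop_bm Al.csym (us_lt Al.cx K hz) f

theorem Gv_meas (K : C(UnitAddTorus (Fin d), ℝ)) {z : ℂ} (hz : 0 < z.im) (f : l2 (Fin d → ℤ))
    (y : Fin d → ℤ) : Measurable fun v : (Fin d → ℤ) → ℝ => Gv K v z f y := by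
  have h := ((BM.const (Ω := (Fin d → ℤ) → ℝ) (dl y : l2 (Fin d → ℤ))).inner
    (Gv_bm K hz f)).sm.measurable
  have e : (fun v : (Fin d → ℤ) → ℝ => Gv K v z f y)
      = fun v => (inner ℂ (dl y) (Gv K v z f) : ℂ) := funext fun v => coord_inner y _
  rw [e]
  exact h

end

end Pool.Agent.U281.LAP
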