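import Pool.Agent.U281.LAP.Den2
import Pool.Agent.U281.LAP.Res
import Pool.Agent.W571.WAShf

/-!
All sites.
-/

set_option autoImplicit false

namespace Pool.Agent.U281.LAP

open MeasureTheory Filter Pool.Agent.W792.LL Pool.Agent.W792.WA Pool.Agent.U281.GEN
  Pool.Agent.W19.WAPsi
open scoped Topology ENNReal

noncomputable section

variable {d : ℕ}

/-- The potential seen from the site `x`. -/
def pot (lam : ℝ) (x : Fin d → ℤ) (ω : (Fin d → ℤ) → ℝ) : (Fin d → ℤ) → ℝ :=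
  fun y => lam * ω (y + x)

theorem pot_mp (ν : Measure ℝ) [IsProbabilityMeasure ν] (lam : ℝ)
    [IsProbabilityMeasure (ν.map fun t => lam * t)] (x : Fin d → ℤ) :
    MeasurePreserving (pot lam x) (Pn ν (Fin d → ℤ)) (Pn (ν.map fun t => lam * t) (Fin d → ℤ)) :=
  (scale_mp ν lam).comp (Pool.Agent.W571.WAShf.mp ν d x)

/-- Matrix elements of the resolvent. -/
def Gr (K : C(UnitAddTorus (Fin d), ℝ)) (lam : ℝ) (ω : (Fin d → ℤ) → ℝ) (z : ℂ)
    (x : Fin d → ℤ) : (Fin d → ℤ) → ℂ := fun y => Gv K (fun y => lam * ω y) z (dl x) y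

theorem Gr_iff (K : C(UnitAddTorus (Fin d), ℝ)) (lam : ℝ) (ω : (Fin d → ℤ) → ℝ) {z : ℂ}
    (hz : 0 < z.im) (x : Fin d → ℤ) (u : (Fin d → ℤ) → ℂ) :
    Sol (hopK K) lam ω z x u ↔ u = Gr K lam ω z x := by
  rw [← Pool.Agent.W156.WAFin.sol_scale, sol_iff_Gv K _ hz]
  rfl

theorem scale_meas (lam : ℝ) :
    Measurable fun (ω : (Fin d → ℤ) → ℝ) (y : Fin d → ℤ) => lam * ω y := by fun_prop

theorem Gr_meas (K : C(UnitAddTorus (Fin d), ℝ)) (lam : ℝ) {z : ℂ} (hz : 0 < z.im)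
    (x y : Fin d → ℤ) : Measurable fun ω : (Fin d → ℤ) → ℝ => Gr K lam ω z x y :=
  (Gv_meas K hz (dl x) y).comp (scale_meas lam)

theorem Gr_diag (K : C(UnitAddTorus (Fin d), ℝ)) (lam : ℝ) (ω : (Fin d → ℤ) → ℝ) {z : ℂ}
    (hz : 0 < z.im) (x : Fin d → ℤ) : Gr K lam ω z x x = gf K 1 (pot lam x ω) z := by
  unfold Gr
  rw [Gv_diag K _ hz x]
  rfl

/-- Matrix elements of the imaginary part of the resolvent. -/
def Ti (K : C(UnitAddTorus (Fin d), ℝ)) (lam : ℝ) (ω : (Fin d → ℤ) → ℝ) (z : ℂ)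
    (x y : Fin d → ℤ) : ℂ :=
  (z.im : ℂ) * ∑' w, (starRingEnd ℂ) (Gr K lam ω z x w) * Gr K lam ω z y w

theorem Ti_eq (K : C(UnitAddTorus (Fin d), ℝ)) (lam : ℝ) (ω : (Fin d → ℤ) → ℝ) (z : ℂ)
    (x y : Fin d → ℤ) : Ti K lam ω z x y = (z.im : ℂ) * inner ℂ
      (Gv K (fun y => lam * ω y) z (dl x)) (Gv K (fun y => lam * ω y) z (dl y)) := by
  unfold Ti
  rw [lp.inner_eq_tsum]
  congr 1
  refine tsum_congr fun w => ?_
  simp only [RCLike.inner_apply]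
  unfold Gr
  rw [mul_comm]

theorem Ti_meas (K : C(UnitAddTorus (Fin d), ℝ)) (lam : ℝ) {z : ℂ} (hz : 0 < z.im)
    (x y : Fin d → ℤ) : Measurable fun ω : (Fin d → ℤ) → ℝ => Ti K lam ω z x y := by
  have h := (((Gv_bm K hz (dl x)).inner (Gv_bm K hz (dl y))).sm.measurable.comp
    (scale_meas lam)).const_mul (z.im : ℂ)
  simp only [Ti_eq]
  exact h

theorem Ti_le (K : C(UnitAddTorus (Fin d), ℝ)) (lam : ℝ) (ω : (Fin d → ℤ) → ℝ) {z : ℂ}
    (hz : 0 < z.im) (x y : Fin d → ℤ) :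
    ‖Ti K lam ω z x y‖ ≤ ‖gf K 1 (pot lam x ω) z‖ + ‖gf K 1 (pot lam y ω) z‖ := by
  rw [Ti_eq]
  refine (off_le K _ hz x y).trans ?_
  have h1 := Gr_diag K lam ω hz x
  have h2 := Gr_diag K lam ω hz y
  unfold Gr at h1 h2
  rw [h1, h2]
  exact add_le_add ((le_abs_self _).trans (Complex.abs_im_le_norm _))
    ((le_abs_self _).trans (Complex.abs_im_le_norm _))

/-- `E ‖F‖ ^ p ≤ C`, the expectation being finite. -/
def Mo (ν : Measure ℝ) [IsProbabilityMeasure ν] (p : ℕ) (F : ((Fin d → ℤ) → ℝ) → ℂ) (C : ℝ) :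
    Prop :=
  Integrable (fun ω => ‖F ω‖ ^ p) (Pn ν (Fin d → ℤ)) ∧ ∫ ω, ‖F ω‖ ^ p ∂(Pn ν (Fin d → ℤ)) ≤ C

theorem Mo.mono {ν : Measure ℝ} [IsProbabilityMeasure ν] {p : ℕ}
    {F : ((Fin d → ℤ) → ℝ) → ℂ} {C C' : ℝ} (h : Mo ν p F C) (hC : C ≤ C') : Mo ν p F C' :=
  ⟨h.1, h.2.trans hC⟩

variable (ν : Measure ℝ) [IsProbabilityMeasure ν] (lam : ℝ)
  [IsProbabilityMeasure (ν.map fun t => lam * t)]

theorem Mo_pot (x : Fin d → ℤ) {p : ℕ} {F : ((Fin d → ℤ) → ℝ) → ℂ} {C : ℝ} (hF : Measurable F)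
    (h : Mo (ν.map fun t => lam * t) p F C) : Mo ν p (fun ω => F (pot lam x ω)) C := by
  have hmp := pot_mp (d := d) ν lam x
  refine ⟨hmp.integrable_comp_of_integrable h.1, ?_⟩
  have e := integral_map (μ := Pn ν (Fin d → ℤ)) hmp.measurable.aemeasurable
    (f := fun v => ‖F v‖ ^ p) (hF.norm.pow_const p).aestronglyMeasurable
  rw [hmp.map_eq] at e
  rw [← e]
  exact h.2

theorem prob_pot (x : Fin d → ℤ) {F : ((Fin d → ℤ) → ℝ) → ℝ} {t C : ℝ} (hF : Measurable F)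
    (h : ((Pn (ν.map fun t => lam * t) (Fin d → ℤ)) {v | F v < t}).toReal ≤ C) :
    (Pn ν (Fin d → ℤ)) {ω | F (pot lam x ω) < t} ≤ ENNReal.ofReal C := by
  have hmp := pot_mp (d := d) ν lam x
  have hms : MeasurableSet {v | F v < t} := measurableSet_lt hF measurable_const
  have e := hmp.measure_preimage hms.nullMeasurableSet
  have e2 : {ω | F (pot lam x ω) < t} = pot lam x ⁻¹' {v | F v < t} := rfl
  rw [e2, e]
  exact ofReal_toReal_le (measure_ne_top _ _) h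

variable {ν lam}

/-- The full statement for an operator `K + lam V`. -/
structure Full (K : C(UnitAddTorus (Fin d), ℝ)) (lam : ℝ) (ν : Measure ℝ)
    [IsProbabilityMeasure ν] (a b η₀ : ℝ) : Prop where
  mom : ∀ p : ℕ, 1 ≤ p → ∃ C : ℝ, ∀ (x y : Fin d → ℤ), ∀ z ∈ St a b η₀,
    Mo ν p (fun ω => Gr K lam ω z x x) C ∧ Mo ν p (fun ω => Ti K lam ω z x y) C
  cont : ∀ (p : ℕ) (e : ℝ), 1 ≤ p → 0 < e → ∃ θ : ℝ, 0 < θ ∧ ∀ x : Fin d → ℤ,
    ∀ z ∈ St a b η₀, ∀ z' ∈ St a b η₀, ‖z - z'‖ ≤ θ →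
      Mo ν p (fun ω => Gr K lam ω z x x - Gr K lam ω z' x x) e
  small : ∀ p : ℕ, 1 ≤ p → ∃ C : ℝ, ∀ x : Fin d → ℤ, ∀ z ∈ St a b η₀, ∀ t : ℝ, 0 < t →
    (Pn ν (Fin d → ℤ)) {ω | (1 + (lam * ω x) ^ 2) * (Gr K lam ω z x x).im < t}
      ≤ ENNReal.ofReal (C * t ^ p)
  bdry : ∃ B : (Fin d → ℤ) → ((Fin d → ℤ) → ℝ) → ℝ → ℂ,
    (∀ x, Measurable (Function.uncurry (B x))) ∧
    (∀ p : ℕ, 1 ≤ p → ∃ C : ℝ, ∀ (x : Fin d → ℤ) (E : ℝ), a ≤ E → E ≤ b →
      Mo ν p (fun ω => B x ω E) C ∧ ∀ t : ℝ, 0 < t →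
        (Pn ν (Fin d → ℤ)) {ω | (1 + (lam * ω x) ^ 2) * (B x ω E).im < t}
          ≤ ENNReal.ofReal (C * t ^ p)) ∧
    (∀ (p : ℕ) (e : ℝ), 1 ≤ p → 0 < e → ∃ θ : ℝ, 0 < θ ∧ ∀ x : Fin d → ℤ,
      ∀ z ∈ St a b η₀, z.im ≤ θ → Mo ν p (fun ω => Gr K lam ω z x x - B x ω z.re) e) ∧
    ∀ᵐ ω ∂(Pn ν (Fin d → ℤ)), ∀ x : Fin d → ℤ,
      (∀ᵐ E ∂(volume.restrict (Set.Ioo a b)), 0 < (B x ω E).im / Real.pi) ∧
      ∃ μ : Measure ℝ, IsFiniteMeasure μ ∧
        (∀ z : ℂ, 0 < z.im → Gr K lam ω z x x = ∫ E : ℝ, 1 / ((E : ℂ) - z) ∂μ) ∧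
        μ.restrict (Set.Ioo a b) = (volume.restrict (Set.Ioo a b)).withDensity
          fun E => ENNReal.ofReal ((B x ω E).im / Real.pi)

theorem pot_meas (lam : ℝ) (x : Fin d → ℤ) : Measurable (pot lam x) := by
  unfold pot
  fun_prop

theorem G0_pot (K : C(UnitAddTorus (Fin d), ℝ)) {η : ℕ → ℝ} (hη : ∀ n, 0 < η n) (lam : ℝ)
    (x : Fin d → ℤ) : Measurable (Function.uncurry fun (ω : (Fin d → ℤ) → ℝ) (E : ℝ) =>
      G0 K η (pot lam x ω) E) := by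
  have h1 : Measurable fun q : ((Fin d → ℤ) → ℝ) × ℝ => (pot lam x q.1, q.2) :=
    ((pot_meas lam x).comp measurable_fst).prodMk measurable_snd
  have h2 := (G0_joint K hη).comp h1
  have e : (Function.uncurry fun (ω : (Fin d → ℤ) → ℝ) (E : ℝ) => G0 K η (pot lam x ω) E)
      = (Function.uncurry fun (v : (Fin d → ℤ) → ℝ) (E : ℝ) => G0 K η v E)
        ∘ fun q : ((Fin d → ℤ) → ℝ) × ℝ => (pot lam x q.1, q.2) := by
    funext q
    rfl
  rw [e]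
  exact h2

theorem full_of {K : C(UnitAddTorus (Fin d), ℝ)} {a b η₀ : ℝ} (hab : a < b) (h0 : 0 < η₀)
    (h : LapG K (ν.map fun t => lam * t) a b η₀) : Full K lam ν a b η₀ := by
  have hpot0 : ∀ (x : Fin d → ℤ) (ω : (Fin d → ℤ) → ℝ), pot lam x ω 0 = lam * ω x := by
    intro x ω
    unfold pot
    rw [zero_add]
  obtain ⟨η, hg⟩ := exists_good h0 h
  have hη := hg.1
  refine ⟨fun p hp => ?_, fun p e hp he => ?_, fun p hp => ?_, ?_⟩
  · obtain ⟨⟨C, hC⟩, -, -⟩ := h p hp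
    have key : ∀ (x : Fin d → ℤ), ∀ z ∈ St a b η₀, Mo ν p (fun ω => gf K 1 (pot lam x ω) z) C :=
      fun x z hz => Mo_pot ν lam x (F := fun v => gf K 1 v z) (gf_meas K hz.2.2.1)
        ⟨gf_int K _ hz.2.2.1 p, hC z hz⟩
    refine ⟨2 ^ p * (|C| + |C|) + |C|, fun x y z hz => ⟨?_, ?_⟩⟩
    · simp only [Gr_diag K lam _ hz.2.2.1 x]
      refine (key x z hz).mono ?_
      have := le_abs_self C
      have : 0 ≤ 2 ^ p * (|C| + |C|) := by positivity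
      linarith
    · have k1 := key x z hz
      have k2 := key y z hz
      have hb : ∀ ω, ‖Ti K lam ω z x y‖ ^ p ≤ 2 ^ p * (‖gf K 1 (pot lam x ω) z‖ ^ p
          + ‖gf K 1 (pot lam y ω) z‖ ^ p) := by
        intro ω
        refine (pow_le_pow_left₀ (norm_nonneg _) (Ti_le K lam ω hz.2.2.1 x y) p).trans ?_
        have h2 := two_pow_norm p ((‖gf K 1 (pot lam x ω) z‖ : ℝ) : ℂ)
          ((‖gf K 1 (pot lam y ω) z‖ : ℝ) : ℂ)
        rw [← Complex.ofReal_add, Complex.norm_real, Complex.norm_real, Complex.norm_real,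
          Real.norm_of_nonneg (by positivity), norm_norm, norm_norm] at h2
        exact h2
      have i0 : Integrable (fun ω => 2 ^ p * (‖gf K 1 (pot lam x ω) z‖ ^ p
          + ‖gf K 1 (pot lam y ω) z‖ ^ p)) (Pn ν (Fin d → ℤ)) := (k1.1.add k2.1).const_mul _
      have i1 : Integrable (fun ω => ‖Ti K lam ω z x y‖ ^ p) (Pn ν (Fin d → ℤ)) := by
        refine i0.mono' ((Ti_meas K lam hz.2.2.1 x y).norm.pow_const p).aestronglyMeasurable
          (ae_of_all _ fun ω => ?_)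
        rw [Real.norm_of_nonneg (by positivity)]
        exact hb ω
      refine ⟨i1, ?_⟩
      calc ∫ ω, ‖Ti K lam ω z x y‖ ^ p ∂(Pn ν (Fin d → ℤ))
          ≤ ∫ ω, 2 ^ p * (‖gf K 1 (pot lam x ω) z‖ ^ p + ‖gf K 1 (pot lam y ω) z‖ ^ p)
              ∂(Pn ν (Fin d → ℤ)) := integral_mono i1 i0 hb
        _ = 2 ^ p * (∫ ω, ‖gf K 1 (pot lam x ω) z‖ ^ p ∂(Pn ν (Fin d → ℤ))
              + ∫ ω, ‖gf K 1 (pot lam y ω) z‖ ^ p ∂(Pn ν (Fin d → ℤ))) := by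
            rw [integral_const_mul, integral_add k1.1 k2.1]
        _ ≤ 2 ^ p * (|C| + |C|) := by
            have := k1.2.trans (le_abs_self C)
            have := k2.2.trans (le_abs_self C)
            gcongr
        _ ≤ _ := by linarith [abs_nonneg C]
  · obtain ⟨-, h2, -⟩ := h p hp
    obtain ⟨θ, hθ, hθ1⟩ := h2 e he
    refine ⟨θ, hθ, fun x z hz z' hz' hzz => ?_⟩
    simp only [Gr_diag K lam _ hz.2.2.1 x, Gr_diag K lam _ hz'.2.2.1 x]
    exact Mo_pot ν lam x (F := fun v => gf K 1 v z - gf K 1 v z')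
      ((gf_meas K hz.2.2.1).sub (gf_meas K hz'.2.2.1))
      ⟨gf_int_sub K _ hz.2.2.1 hz'.2.2.1 p, hθ1 z hz z' hz' hzz⟩
  · obtain ⟨-, -, C, hC, h3⟩ := h p hp
    refine ⟨C, fun x z hz t ht => ?_⟩
    have h4 := prob_pot ν lam x (F := fun v => (1 + v 0 ^ 2) * (gf K 1 v z).im)
      (((measurable_const.add ((measurable_pi_apply 0).pow_const 2))).mul
        (Complex.measurable_im.comp (gf_meas K hz.2.2.1))) (h3 z hz t ht)
    simp only [hpot0] at h4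
    simp only [Gr_diag K lam _ hz.2.2.1 x]
    exact h4
  · refine ⟨fun x ω E => G0 K η (pot lam x ω) E, fun x => ?_, fun p hp => ?_,
      fun p e hp he => ?_, ?_⟩
    · exact G0_pot K hη lam x
    · obtain ⟨C, hC, m1, m2⟩ := G0_mom h hg hp
      refine ⟨C, fun x E ha hb => ⟨?_, fun t ht => ?_⟩⟩
      · exact Mo_pot ν lam x (F := fun v => G0 K η v E) (G0_joint K hη).of_uncurry_right
          (m1 E ha hb)
      · have h4 := prob_pot ν lam x (F := fun v => (1 + v 0 ^ 2) * (G0 K η v E).im)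
          (((measurable_const.add ((measurable_pi_apply 0).pow_const 2))).mul
            (Complex.measurable_im.comp (G0_joint K hη).of_uncurry_right)) (m2 E ha hb t ht)
        simp only [hpot0] at h4
        exact h4
    · obtain ⟨θ, hθ, h1⟩ := G0_conv h hg hp he
      refine ⟨θ, hθ, fun x z hz hzθ => ?_⟩
      simp only [Gr_diag K lam _ hz.2.2.1 x]
      exact Mo_pot ν lam x (F := fun v => gf K 1 v z - G0 K η v z.re)
        ((gf_meas K hz.2.2.1).sub (G0_joint K hη).of_uncurry_right) (h1 z hz hzθ)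
    · rw [ae_all_iff]
      intro x
      have h1 := (pot_mp (d := d) ν lam x).quasiMeasurePreserving.ae (G0_density hab h hg)
      filter_upwards [h1] with ω hω
      refine ⟨hω.1, ?_⟩
      obtain ⟨μ, hμ, hμs⟩ := Al.spmu d K (pot lam x ω)
      have hz : ∀ z : ℂ, 0 < z.im → gf K 1 (pot lam x ω) z = ∫ E : ℝ, 1 / ((E : ℂ) - z) ∂μ := by
        intro z hz
        obtain ⟨w, hw, hw0⟩ := gf_sol K (pot lam x ω) hz
        rw [← hw0]
        exact (hμs z hz).2 w hw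
      refine ⟨μ, hμ, fun z hz' => ?_, hω.2 μ hμ hz⟩
      rw [Gr_diag K lam ω hz' x]
      exact hz z hz'

end

end Pool.Agent.U281.LAP
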