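import Pool.Agent.U281.LAP.Kfy
import Pool.Agent.U281.LAP.Site

/-!
The final theorem, library form.
-/

set_option autoImplicit false

namespace Pool.Agent.U281.LAP

open MeasureTheory Filter Pool.Agent.W792.LL Pool.Agent.W792.WA Pool.Agent.U281.GEN
open scoped Topology ENNReal

noncomputable section

theorem lap_final (d : ℕ) (hd : 0 < d) (K : C(UnitAddTorus (Fin d), ℝ))
    (hK : (⨅ k, K k) < ⨆ k, K k) (ε : ℝ) (hε : 0 < ε) :
    ∃ g : C(ℝ, ℝ), (∀ t, |g t| ≤ ε) ∧ (∀ x : Fin d → ℤ,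
      ‖UnitAddTorus.mFourierCoeff (fun k : UnitAddTorus (Fin d) => ((g (lap d k) : ℝ) : ℂ)) x‖
        ≤ ε / (1 + ‖x‖) ^ ((d : ℝ) / 3)) ∧
      ∀ (ν : Measure ℝ) [IsProbabilityMeasure ν], Integrable (fun t : ℝ => t ^ 60) ν →
        (∀ a : ℝ, ν {a} < 1) → ∃ lam₀ : ℝ, 0 < lam₀ ∧ ∀ lam : ℝ, 0 < |lam| → |lam| ≤ lam₀ →
          Full (K + gK g d) lam ν (⨅ k, K k) (⨆ k, K k)
            (((⨆ k, K k) - ⨅ k, K k) / (4 * d)) := by
  obtain ⟨ψ, hψ, h⟩ := Al.exists_lv Pool.Agent.W915.WA.WH.main Pool.Agent.W332.WA.WB.main Al.wd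
  obtain ⟨C, hC, hC1⟩ := h d hd
  have hS0 : 0 < min ε (ε / C) := lt_min hε (by positivity)
  obtain ⟨g, hg1, hg2⟩ := kfy hψ hd K hS0 hK
  refine ⟨g, fun t => (G16.IsSum.bound hψ.bound hg1 t).trans (min_le_left _ _), fun x => ?_,
    fun ν _ hm hat => ?_⟩
  · have h1 := WSP.main d ψ C (min ε (ε / C)) g hd hC.le hS0.le hC1 hg1 x
    refine h1.trans ?_
    have h2 : min ε (ε / C) * C ≤ ε := by
      calc min ε (ε / C) * C ≤ ε / C * C := mul_le_mul_of_nonneg_right (min_le_right _ _) hC.le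
        _ = ε := by field_simp
    have h3 : 0 < (1 + ‖x‖) ^ ((d : ℝ) / 3) := by positivity
    exact div_le_div_of_nonneg_right h2 h3.le
  have hmn : Measurable fun t : ℝ => -t := measurable_neg
  have n1 : IsProbabilityMeasure (ν.map fun t : ℝ => -t) :=
    Measure.isProbabilityMeasure_map hmn.aemeasurable
  have n2 : Integrable (fun t : ℝ => t ^ 60) (ν.map fun t : ℝ => -t) := by
    refine (integrable_map_measure ?_ hmn.aemeasurable).2 ?_
    · exact (measurable_id.pow_const 60).aestronglyMeasurable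
    · refine hm.congr (Filter.Eventually.of_forall fun t => ?_)
      change t ^ 60 = (-t) ^ 60
      ring
  have n3 : ∀ a : ℝ, (ν.map fun t : ℝ => -t) {a} < 1 := by
    intro a
    rw [Measure.map_apply hmn (measurableSet_singleton a)]
    have e : (fun t : ℝ => -t) ⁻¹' {a} = {-a} := by
      ext t
      simp only [Set.mem_preimage, Set.mem_singleton_iff]
      constructor <;> intro h <;> linarith
    rw [e]
    exact hat _
  obtain ⟨l1, hl1, hK1⟩ := hg2 ν hm hat
  obtain ⟨l2, hl2, hK2⟩ := hg2 (ν.map fun t : ℝ => -t) n2 n3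
  refine ⟨min l1 l2, lt_min hl1 hl2, fun lam hs1 hs2 => ?_⟩
  have i1 : IsProbabilityMeasure (ν.map fun t => lam * t) :=
    Measure.isProbabilityMeasure_map (by fun_prop)
  have hd' : (0 : ℝ) < 4 * d := by positivity
  have hη : 0 < ((⨆ k, K k) - ⨅ k, K k) / (4 * d) := div_pos (by linarith) hd'
  refine full_of hK hη ?_
  rcases lt_or_gt_of_ne (abs_pos.1 hs1) with h | h
  · have i2 : IsProbabilityMeasure ((ν.map fun t : ℝ => -t).map fun t => |lam| * t) :=
      Measure.isProbabilityMeasure_map (by fun_prop)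
    refine LapG_congr ?_ rfl rfl rfl (hK2 |lam| hs1 (hs2.trans (min_le_right _ _)))
    rw [Measure.map_map (by fun_prop) (by fun_prop), abs_of_neg h]
    congr 1
    funext t
    simp only [Function.comp]
    ring
  · have h1 := hK1 lam h ((le_abs_self lam).trans (hs2.trans (min_le_left _ _)))
    exact h1

end

end Pool.Agent.U281.LAP
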