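import Pool.Agent.U281.LAP.Cons
import Pool.Agent.U281.GEN.Fin
import Pool.Agent.W338.WA.Aff
import Pool.Agent.W298.WA.Aeqk

/-!
From the phase functions to the Green function at the origin, and affine changes of the energy.
-/

set_option autoImplicit false

namespace Pool.Agent.U281.LAP

open MeasureTheory Filter Pool.Agent.W792.LL Pool.Agent.W792.WA Pool.Agent.U281.GEN
open scoped Topology

noncomputable section

variable {d : ℕ}

theorem gf_gz (K : C(UnitAddTorus (Fin d), ℝ)) (v : (Fin d → ℤ) → ℝ) (z : ℂ) :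
    gf K 1 v z = gz (us (Measure.dirac 0) 1 z K) v := by
  unfold gf gz
  norm_num

theorem gf_meas (K : C(UnitAddTorus (Fin d), ℝ)) {z : ℂ} (hz : 0 < z.im) :
    Measurable fun v : (Fin d → ℤ) → ℝ => gf K 1 v z := by
  simp only [gf_gz]
  exact gz_meas Al.cay Al.mzp (us_lt Al.cx K hz)

theorem gf_sol (K : C(UnitAddTorus (Fin d), ℝ)) (v : (Fin d → ℤ) → ℝ) {z : ℂ} (hz : 0 < z.im) :
    ∃ w, Sol (hopK K) 1 v z 0 w ∧ w 0 = gf K 1 v z := by
  obtain ⟨⟨w, hw⟩, h2⟩ := Pool.Agent.W156.WAFin.hG d K 1 one_pos v z hz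
  exact ⟨w, hw, h2 w hw⟩

theorem gf_facts (K : C(UnitAddTorus (Fin d), ℝ)) (v : (Fin d → ℤ) → ℝ) {z : ℂ} (hz : 0 < z.im) :
    0 ≤ (gf K 1 v z).im ∧ ‖gf K 1 v z‖ ≤ 1 / z.im :=
  (Pool.Agent.W156.WAFin.hR d K 1 v (gf K 1 v) fun _ hz => gf_sol K v hz).1 z hz

theorem gf_int (K : C(UnitAddTorus (Fin d), ℝ)) (ν : Measure ℝ) [IsProbabilityMeasure ν] {z : ℂ}
    (hz : 0 < z.im) (p : ℕ) :
    Integrable (fun v : (Fin d → ℤ) → ℝ => ‖gf K 1 v z‖ ^ p) (Pn ν (Fin d → ℤ)) :=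
  int_pow (gf_meas K hz) (fun v => (gf_facts K v hz).2) p

theorem gf_int_sub (K : C(UnitAddTorus (Fin d), ℝ)) (ν : Measure ℝ) [IsProbabilityMeasure ν]
    {z z' : ℂ} (hz : 0 < z.im) (hz' : 0 < z'.im) (p : ℕ) :
    Integrable (fun v : (Fin d → ℤ) → ℝ => ‖gf K 1 v z - gf K 1 v z'‖ ^ p) (Pn ν (Fin d → ℤ)) :=
  int_pow_sub (gf_meas K hz) (gf_meas K hz') (fun v => (gf_facts K v hz).2)
    (fun v => (gf_facts K v hz').2) p

/-- The strip. -/
def St (a b η₀ : ℝ) : Set ℂ := {z | a ≤ z.re ∧ z.re ≤ b ∧ 0 < z.im ∧ z.im ≤ η₀}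

/-- The estimates for the Green function at the origin. -/
def LapG (K : C(UnitAddTorus (Fin d), ℝ)) (ν : Measure ℝ) [IsProbabilityMeasure ν]
    (a b η₀ : ℝ) : Prop := ∀ p : ℕ, 1 ≤ p →
    (∃ C : ℝ, ∀ z ∈ St a b η₀, ∫ v, ‖gf K 1 v z‖ ^ p ∂(Pn ν (Fin d → ℤ)) ≤ C) ∧
    (∀ e : ℝ, 0 < e → ∃ θ : ℝ, 0 < θ ∧ ∀ z ∈ St a b η₀, ∀ z' ∈ St a b η₀, ‖z - z'‖ ≤ θ →
      ∫ v, ‖gf K 1 v z - gf K 1 v z'‖ ^ p ∂(Pn ν (Fin d → ℤ)) ≤ e) ∧
    ∃ C : ℝ, 0 ≤ C ∧ ∀ z ∈ St a b η₀, ∀ t : ℝ, 0 < t →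
      ((Pn ν (Fin d → ℤ)) {v | (1 + v 0 ^ 2) * (gf K 1 v z).im < t}).toReal ≤ C * t ^ p

theorem aw_eq (v : (Fin d → ℤ) → ℝ) :
    (1 + v 0 ^ 2) * Pool.Agent.W156.WAFin.Aw v = 1 := by
  unfold Pool.Agent.W156.WAFin.Aw
  rw [(Al.cay.2.2.1 (v 0)).1]
  have : (1 : ℝ) + v 0 ^ 2 ≠ 0 := by positivity
  field_simp

theorem im_eq (K : C(UnitAddTorus (Fin d), ℝ)) (v : (Fin d → ℤ) → ℝ) (z : ℂ) :
    (1 + v 0 ^ 2) * (gf K 1 v z).im = PfK K z.im z.re v := by
  have h1 := Pool.Agent.W298.WA.Aeqk.gf_imK K v z.im z.re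
  have e : (⟨z.re, z.im⟩ : ℂ) = z := rfl
  rw [e] at h1
  rw [h1, ← mul_assoc, aw_eq, one_mul]

theorem gf_pow_le (K : C(UnitAddTorus (Fin d), ℝ)) (v : (Fin d → ℤ) → ℝ) (z : ℂ) (p : ℕ) :
    ‖gf K 1 v z‖ ^ p
      ≤ 2 ^ p * (1 + 2 ^ p * ‖Zf (us (Measure.dirac 0) 1 z K) (fun x => cay (v x))‖ ^ p) := by
  obtain ⟨Z, hZ⟩ : ∃ Z, Z = Zf (us (Measure.dirac 0) 1 z K) (fun x => cay (v x)) := ⟨_, rfl⟩
  have e : gf K 1 v z = (1 / (2 * Complex.I)) * (1 - (starRingEnd ℂ) (cay (v 0)))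
      + (-((1 / (2 * Complex.I)) * ((‖1 - cay (v 0)‖ ^ 2 : ℝ) * Z))) := by
    rw [gf_gz, hZ]
    unfold gz
    ring
  rw [e, ← hZ]
  refine (two_pow_norm p _ _).trans ?_
  have e2 := one_sub_cay Al.cay (v 0)
  have a1 : ‖(1 / (2 * Complex.I)) * (1 - (starRingEnd ℂ) (cay (v 0)))‖ ≤ 1 := by
    rw [norm_mul, half_norm]
    have h1 := norm_sub_le (1 : ℂ) ((starRingEnd ℂ) (cay (v 0)))
    rw [norm_one, RCLike.norm_conj, Al.cay.1] at h1
    linarith
  have a2 : ‖-((1 / (2 * Complex.I)) * ((‖1 - cay (v 0)‖ ^ 2 : ℝ) * Z))‖ ≤ 2 * ‖Z‖ := by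
    rw [norm_neg, norm_mul, half_norm, norm_mul, Complex.norm_real,
      Real.norm_of_nonneg (by positivity)]
    nlinarith [norm_nonneg Z]
  gcongr
  · exact pow_le_one₀ (norm_nonneg _) a1
  · rw [← mul_pow]
    exact pow_le_pow_left₀ (norm_nonneg _) a2 p

theorem zf_pow_int (K : C(UnitAddTorus (Fin d), ℝ)) (ν : Measure ℝ) [IsProbabilityMeasure ν]
    {z : ℂ} (hz : 0 < z.im) (p : ℕ) :
    Integrable (fun v : (Fin d → ℤ) → ℝ =>
      ‖Zf (us (Measure.dirac 0) 1 z K) (fun x => cay (v x))‖ ^ p) (Pn ν (Fin d → ℤ)) :=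
  int_pow (Al.mzp d _ _ (us_lt Al.cx K hz) le_rfl)
    (fun v => Ch.Zf_bound Al.zf Al.cay (norm_nonneg _) (us_lt Al.cx K hz) le_rfl v) p

theorem zf_pow_int_sub (K : C(UnitAddTorus (Fin d), ℝ)) (ν : Measure ℝ) [IsProbabilityMeasure ν]
    {z z' : ℂ} (hz : 0 < z.im) (hz' : 0 < z'.im) (p : ℕ) :
    Integrable (fun v : (Fin d → ℤ) → ℝ =>
      ‖Zf (us (Measure.dirac 0) 1 z K) (fun x => cay (v x))
        - Zf (us (Measure.dirac 0) 1 z' K) (fun x => cay (v x))‖ ^ p) (Pn ν (Fin d → ℤ)) :=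
  int_pow_sub (Al.mzp d _ _ (us_lt Al.cx K hz) le_rfl) (Al.mzp d _ _ (us_lt Al.cx K hz') le_rfl)
    (fun v => Ch.Zf_bound Al.zf Al.cay (norm_nonneg _) (us_lt Al.cx K hz) le_rfl v)
    (fun v => Ch.Zf_bound Al.zf Al.cay (norm_nonneg _) (us_lt Al.cx K hz') le_rfl v) p

/-- From the phase functions to the Green function. -/
theorem lapG_of {K : C(UnitAddTorus (Fin d), ℝ)} {ν : Measure ℝ} [IsProbabilityMeasure ν]
    (h : Lap K ν) : LapG K ν 0 (4 * d) 1 := by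
  intro p hp
  obtain ⟨⟨C1, h1⟩, h2, C3, h3⟩ := h p hp
  refine ⟨⟨2 ^ p * (1 + 2 ^ p * C1), fun z hz => ?_⟩, fun e he => ?_, |C3|, abs_nonneg _,
    fun z hz t ht => ?_⟩
  · have hz2 := hz.2.2.1
    calc ∫ v, ‖gf K 1 v z‖ ^ p ∂(Pn ν (Fin d → ℤ))
        ≤ ∫ v, 2 ^ p * (1 + 2 ^ p
            * ‖Zf (us (Measure.dirac 0) 1 z K) (fun x => cay (v x))‖ ^ p) ∂(Pn ν (Fin d → ℤ)) :=
          integral_mono (gf_int K ν hz2 p)
            (((integrable_const _).add ((zf_pow_int K ν hz2 p).const_mul _)).const_mul _)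
            fun v => gf_pow_le K v z p
      _ = 2 ^ p * (1 + 2 ^ p
            * ∫ v, ‖Zf (us (Measure.dirac 0) 1 z K) (fun x => cay (v x))‖ ^ p
              ∂(Pn ν (Fin d → ℤ))) := by
          rw [integral_const_mul, integral_add (integrable_const _)
            ((zf_pow_int K ν hz2 p).const_mul _), integral_const_mul]
          simp
      _ ≤ 2 ^ p * (1 + 2 ^ p * C1) := by
          gcongr
          exact h1 z hz
  · obtain ⟨θ, hθ, hθ1⟩ := h2 (e / 2 ^ p) (by positivity)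
    refine ⟨θ, hθ, fun z hz z' hz' hzz => ?_⟩
    have hz2 := hz.2.2.1
    have hz2' := hz'.2.2.1
    calc ∫ v, ‖gf K 1 v z - gf K 1 v z'‖ ^ p ∂(Pn ν (Fin d → ℤ))
        ≤ ∫ v, 2 ^ p * ‖Zf (us (Measure.dirac 0) 1 z K) (fun x => cay (v x))
            - Zf (us (Measure.dirac 0) 1 z' K) (fun x => cay (v x))‖ ^ p ∂(Pn ν (Fin d → ℤ)) := by
          refine integral_mono (gf_int_sub K ν hz2 hz2' p)
            ((zf_pow_int_sub K ν hz2 hz2' p).const_mul _) fun v => ?_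
          simp only
          rw [← mul_pow, gf_gz, gf_gz]
          exact pow_le_pow_left₀ (norm_nonneg _) (gz_sub Al.cay _ _ v) p
      _ = 2 ^ p * ∫ v, ‖Zf (us (Measure.dirac 0) 1 z K) (fun x => cay (v x))
            - Zf (us (Measure.dirac 0) 1 z' K) (fun x => cay (v x))‖ ^ p
              ∂(Pn ν (Fin d → ℤ)) := integral_const_mul _ _
      _ ≤ 2 ^ p * (e / 2 ^ p) := by
          gcongr
          exact hθ1 z hz z' hz' hzz
      _ = e := by field_simp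
  · have h4 := h3 z.im z.re hz t ht
    have e : {v : (Fin d → ℤ) → ℝ | (1 + v 0 ^ 2) * (gf K 1 v z).im < t}
        = {v | PfK K z.im z.re v < t} := by
      ext v
      rw [Set.mem_ofPred_eq, Set.mem_ofPred_eq, im_eq]
    rw [e]
    refine h4.trans ?_
    gcongr
    exact le_abs_self _

/-- Affine change of the energy. -/
theorem gf_aff (K : C(UnitAddTorus (Fin d), ℝ)) (v : (Fin d → ℤ) → ℝ) {α : ℝ} (hα : 0 < α)
    (m : ℝ) {z : ℂ} (hz : 0 < z.im) :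
    gf K 1 v z = α * gf (α • (K - ContinuousMap.const _ m)) 1 (fun y => α * v y)
      (α * (z - m)) := by
  obtain ⟨w, hw, hw0⟩ := gf_sol K v hz
  have h1 := (Pool.Agent.W338.WA.Aff.sol_iff K α m 1 v z 0 hα w).2 hw
  rw [mul_one] at h1
  have h2 := (Pool.Agent.W156.WAFin.sol_scale _ α v _ 0 _).2 h1
  have hz' : 0 < ((α : ℂ) * (z - m)).im := by
    simp only [Complex.mul_im, Complex.ofReal_re, Complex.ofReal_im, Complex.sub_im,
      Complex.sub_re, zero_mul, add_zero, sub_zero]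
    positivity
  have h3 := (Pool.Agent.W156.WAFin.hG d (α • (K - ContinuousMap.const _ m)) 1 one_pos
    (fun y => α * v y) _ hz').2 _ h2
  have hα' : (α : ℂ) ≠ 0 := by exact_mod_cast hα.ne'
  rw [← h3, ← hw0]
  field_simp

/-- Scaling of the product law. -/
theorem scale_mp (ν : Measure ℝ) [IsProbabilityMeasure ν] (α : ℝ)
    [IsProbabilityMeasure (ν.map fun x => α * x)] :
    MeasurePreserving (fun (v : (Fin d → ℤ) → ℝ) y => α * v y) (Pn ν (Fin d → ℤ))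
      (Pn (ν.map fun x => α * x) (Fin d → ℤ)) := by
  refine ⟨by fun_prop, ?_⟩
  have h := Measure.infinitePi_map_pi (μ := fun _ : Fin d → ℤ => ν)
    (f := fun _ => fun t : ℝ => α * t) (fun _ => by fun_prop)
  unfold Pn
  exact h

theorem lapG_aff {K : C(UnitAddTorus (Fin d), ℝ)} {ν : Measure ℝ} [IsProbabilityMeasure ν]
    {α : ℝ} (hα : 0 < α) (m a b : ℝ) [IsProbabilityMeasure (ν.map fun x => α * x)]
    (h : LapG (α • (K - ContinuousMap.const _ m)) (ν.map fun x => α * x) a b 1) :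
    LapG K ν (m + a / α) (m + b / α) (1 / α) := by
  obtain ⟨K', hK'⟩ : ∃ K', K' = α • (K - ContinuousMap.const _ m) := ⟨_, rfl⟩
  have hmp := scale_mp (d := d) ν α
  have hst : ∀ z ∈ St (m + a / α) (m + b / α) (1 / α), (α : ℂ) * (z - m) ∈ St a b 1 := by
    rintro z ⟨h1, h2, h3, h4⟩
    have e1 : ((α : ℂ) * (z - m)).re = α * (z.re - m) := by simp
    have e2 : ((α : ℂ) * (z - m)).im = α * z.im := by simp
    refine ⟨?_, ?_, ?_, ?_⟩
    · rw [e1]
      have : a / α ≤ z.re - m := by linarith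
      rw [div_le_iff₀ hα] at this
      linarith
    · rw [e1]
      have : z.re - m ≤ b / α := by linarith
      rw [le_div_iff₀ hα] at this
      linarith
    · rw [e2]; positivity
    · rw [e2]
      rw [le_div_iff₀ hα] at h4
      linarith
  rw [← hK'] at h
  have hgf : ∀ v : (Fin d → ℤ) → ℝ, ∀ z : ℂ, 0 < z.im →
      gf K 1 v z = α * gf K' 1 (fun y => α * v y) (α * (z - m)) := by
    intro v z hz
    rw [hK']
    exact gf_aff K v hα m hz
  have him : ∀ z ∈ St (m + a / α) (m + b / α) (1 / α), 0 < ((α : ℂ) * (z - m)).im :=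
    fun z hz => (hst z hz).2.2.1
  intro p hp
  obtain ⟨⟨C1, h1⟩, h2, C3, hC3, h3⟩ := h p hp
  refine ⟨⟨α ^ p * C1, fun z hz => ?_⟩, fun e he => ?_,
    C3 * (1 / (α * min 1 (1 / α ^ 2))) ^ p, by positivity, fun z hz t ht => ?_⟩
  · have hz2 := hz.2.2.1
    have e1 : ∀ v : (Fin d → ℤ) → ℝ, ‖gf K 1 v z‖ ^ p
        = α ^ p * ‖gf K' 1 (fun y => α * v y) (α * (z - m))‖ ^ p := by
      intro v
      rw [hgf v z hz2, norm_mul, Complex.norm_real, Real.norm_of_nonneg hα.le, mul_pow]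
    simp only [e1]
    rw [integral_const_mul]
    have e2 := integral_map (μ := Pn ν (Fin d → ℤ)) hmp.measurable.aemeasurable
      (f := fun v => ‖gf K' 1 v (α * (z - m))‖ ^ p)
      ((gf_meas K' (him z hz)).norm.pow_const p).aestronglyMeasurable
    rw [hmp.map_eq] at e2
    rw [← e2]
    gcongr
    exact h1 _ (hst z hz)
  · obtain ⟨θ, hθ, hθ1⟩ := h2 (e / α ^ p) (by positivity)
    refine ⟨θ / α, by positivity, fun z hz z' hz' hzz => ?_⟩
    have hz2 := hz.2.2.1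
    have hz2' := hz'.2.2.1
    have e1 : ∀ v : (Fin d → ℤ) → ℝ, ‖gf K 1 v z - gf K 1 v z'‖ ^ p
        = α ^ p * ‖gf K' 1 (fun y => α * v y) (α * (z - m))
          - gf K' 1 (fun y => α * v y) (α * (z' - m))‖ ^ p := by
      intro v
      rw [hgf v z hz2, hgf v z' hz2', ← mul_sub, norm_mul, Complex.norm_real,
        Real.norm_of_nonneg hα.le, mul_pow]
    simp only [e1]
    rw [integral_const_mul]
    have e2 := integral_map (μ := Pn ν (Fin d → ℤ)) hmp.measurable.aemeasurable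
      (f := fun v => ‖gf K' 1 v (α * (z - m)) - gf K' 1 v (α * (z' - m))‖ ^ p)
      (((gf_meas K' (him z hz)).sub (gf_meas K' (him z' hz'))).norm.pow_const
        p).aestronglyMeasurable
    rw [hmp.map_eq] at e2
    rw [← e2]
    have h4 := hθ1 _ (hst z hz) _ (hst z' hz') (by
      rw [← mul_sub, sub_sub_sub_cancel_right, norm_mul, Complex.norm_real,
        Real.norm_of_nonneg hα.le]
      rw [le_div_iff₀ hα] at hzz
      linarith)
    calc α ^ p * _ ≤ α ^ p * (e / α ^ p) := by gcongr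
      _ = e := by field_simp
  · have hz2 := hz.2.2.1
    obtain ⟨c, hc⟩ : ∃ c : ℝ, c = α * min 1 (1 / α ^ 2) := ⟨_, rfl⟩
    have hc0 : 0 < c := by
      rw [hc]
      have : 0 < min 1 (1 / α ^ 2) := lt_min one_pos (by positivity)
      positivity
    have hsub : {v : (Fin d → ℤ) → ℝ | (1 + v 0 ^ 2) * (gf K 1 v z).im < t} ⊆
        (fun (v : (Fin d → ℤ) → ℝ) y => α * v y) ⁻¹'
          {v | (1 + v 0 ^ 2) * (gf K' 1 v (α * (z - m))).im < t / c} := by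
      intro v hv
      rw [Set.mem_ofPred_eq, hgf v z hz2] at hv
      rw [Set.mem_preimage, Set.mem_ofPred_eq, lt_div_iff₀ hc0]
      refine lt_of_le_of_lt ?_ hv
      rw [Complex.im_ofReal_mul]
      have hG0 := (gf_facts K' (fun y => α * v y) (him z hz)).1
      obtain ⟨G, hG⟩ : ∃ G, G = (gf K' 1 (fun y => α * v y) (α * (z - m))).im := ⟨_, rfl⟩
      rw [← hG] at hG0 ⊢
      have h5 : (1 + (α * v 0) ^ 2) * min 1 (1 / α ^ 2) ≤ 1 + v 0 ^ 2 := by
        have m1 := min_le_left (1 : ℝ) (1 / α ^ 2)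
        have m2 := min_le_right (1 : ℝ) (1 / α ^ 2)
        have m3 : α ^ 2 * min 1 (1 / α ^ 2) ≤ 1 := by
          calc α ^ 2 * min 1 (1 / α ^ 2) ≤ α ^ 2 * (1 / α ^ 2) := by gcongr
            _ = 1 := by field_simp
        calc (1 + (α * v 0) ^ 2) * min 1 (1 / α ^ 2)
            = min 1 (1 / α ^ 2) + v 0 ^ 2 * (α ^ 2 * min 1 (1 / α ^ 2)) := by ring
          _ ≤ 1 + v 0 ^ 2 * 1 := by gcongr
          _ = _ := by ring
      calc (1 + (α * v 0) ^ 2) * G * c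
          = α * G * ((1 + (α * v 0) ^ 2) * min 1 (1 / α ^ 2)) := by rw [hc]; ring
        _ ≤ α * G * (1 + v 0 ^ 2) := by gcongr
        _ = _ := by ring
    have hms : MeasurableSet {v : (Fin d → ℤ) → ℝ |
        (1 + v 0 ^ 2) * (gf K' 1 v (α * (z - m))).im < t / c} :=
      measurableSet_lt (((measurable_const.add ((measurable_pi_apply 0).pow_const 2))).mul
        (Complex.measurable_im.comp (gf_meas K' (him z hz)))) measurable_const
    have h4 := h3 _ (hst z hz) (t / c) (by positivity)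
    calc ((Pn ν (Fin d → ℤ)) {v | (1 + v 0 ^ 2) * (gf K 1 v z).im < t}).toReal
        ≤ ((Pn ν (Fin d → ℤ)) ((fun (v : (Fin d → ℤ) → ℝ) y => α * v y) ⁻¹'
          {v | (1 + v 0 ^ 2) * (gf K' 1 v (α * (z - m))).im < t / c})).toReal :=
          ENNReal.toReal_mono (measure_ne_top _ _) (measure_mono hsub)
      _ = ((Pn (ν.map fun x => α * x) (Fin d → ℤ))
          {v | (1 + v 0 ^ 2) * (gf K' 1 v (α * (z - m))).im < t / c}).toReal := by
          rw [hmp.measure_preimage hms.nullMeasurableSet]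
      _ ≤ C3 * (t / c) ^ p := h4
      _ = C3 * (1 / (α * min 1 (1 / α ^ 2))) ^ p * t ^ p := by
          rw [← hc, div_pow, one_div, inv_pow]
          field_simp

end

end Pool.Agent.U281.LAP
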