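import Pool.Agent.U281.LAP.Gr
import Pool.Agent.W792.WA.All4

/-!
All kinetic energies which are not constant.
-/

set_option autoImplicit false

namespace Pool.Agent.U281.LAP

open MeasureTheory Filter Pool.Agent.W792.LL Pool.Agent.W792.WA Pool.Agent.U281.GEN
open scoped Topology

noncomputable section

variable {d : ℕ}

theorem LapG_congr {K : C(UnitAddTorus (Fin d), ℝ)} {ν ν' : Measure ℝ}
    [IsProbabilityMeasure ν] [IsProbabilityMeasure ν'] {a b η₀ a' b' η₀' : ℝ} (h : ν = ν')
    (ha : a = a') (hb : b = b') (hη : η₀ = η₀')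
    (hG : LapG K ν a b η₀) : LapG K ν' a' b' η₀' := by
  subst h ha hb hη
  exact hG

/-- General kinetic energies. -/
theorem kfy {ψ : C(UnitAddCircle, ℝ)} (hψ : IsSemi ψ) (hd : 0 < d)
    (K : C(UnitAddTorus (Fin d), ℝ)) {ε : ℝ} (hε : 0 < ε) (hlt : (⨅ k, K k) < ⨆ k, K k) :
    ∃ g : C(ℝ, ℝ), IsSum ψ ε g ∧
    ∀ (ν : Measure ℝ) [IsProbabilityMeasure ν], Integrable (fun x : ℝ => x ^ 60) ν →
    (∀ a : ℝ, ν {a} < 1) → ∃ lam₀ : ℝ, 0 < lam₀ ∧ ∀ lam : ℝ, 0 < lam → lam ≤ lam₀ →
      ∀ [IsProbabilityMeasure (ν.map fun x => lam * x)],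
        LapG (K + gK g d) (ν.map fun x => lam * x) (⨅ k, K k) (⨆ k, K k)
          (((⨆ k, K k) - ⨅ k, K k) / (4 * d)) := by
  set m : ℝ := ⨅ k, K k with hm
  set M : ℝ := ⨆ k, K k with hM
  have hcr : IsCompact (Set.range K) := isCompact_range K.continuous
  have hne : (Set.range K).Nonempty := Set.range_nonempty _
  obtain ⟨k0, hk0⟩ : m ∈ Set.range K := hcr.sInf_mem hne
  obtain ⟨k1, hk1⟩ : M ∈ Set.range K := hcr.sSup_mem hne
  have hd' : (0 : ℝ) < 4 * d := by positivity
  have hMm : 0 < M - m := by linarith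
  set α : ℝ := 4 * d / (M - m) with hα
  have hα0 : 0 < α := by positivity
  have hαM : α * (M - m) = 4 * d := by
    rw [hα]
    field_simp
  have hpc : PreconnectedSpace (UnitAddTorus (Fin d)) := by
    unfold UnitAddTorus
    infer_instance
  have hsurj : ∀ E : ℝ, 0 ≤ E → E ≤ 4 * d →
      ∃ k, (α • (K - ContinuousMap.const _ m) : C(UnitAddTorus (Fin d), ℝ)) k = E := by
    intro E hE0 hE1
    have h1 : m ≤ m + E / α := by
      have : 0 ≤ E / α := by positivity
      linarith
    have h2 : m + E / α ≤ M := by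
      have : E / α ≤ M - m := by
        rw [div_le_iff₀ hα0]
        linarith
      linarith
    obtain ⟨k, hk⟩ := mem_range_of_exists_le_of_exists_ge K.continuous
      (c := m + E / α) ⟨k0, by rw [hk0]; exact h1⟩ ⟨k1, by rw [hk1]; exact h2⟩
    refine ⟨k, ?_⟩
    simp only [ContinuousMap.smul_apply, ContinuousMap.sub_apply, ContinuousMap.const_apply,
      smul_eq_mul]
    rw [hk]
    field_simp
    ring
  obtain ⟨g1, hg1, hmain⟩ := kny Al.cx Al.uuc Al.scl Al.zf Al.cay Al.mzp Al.uni Al.uni2 Al.step2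
    Al.jstep Al.netx2 Al.gain Al.fut Al.j0k Al.base4 Al.mom Al.qnt2 Al.aeqk ψ hψ d
    (α • (K - ContinuousMap.const _ m)) (ε * α) hd (by positivity) hsurj
  refine ⟨α⁻¹ • g1, ?_, ?_⟩
  · obtain ⟨l, M', h1, h2, h3, h4⟩ := hg1
    refine ⟨fun j => α⁻¹ * l j, M', fun j => by have := h1 j; positivity, h2.mul_left _, ?_,
      fun t => ?_⟩
    · rw [tsum_mul_left]
      calc α⁻¹ * ∑' j, l j ≤ α⁻¹ * (ε * α) := mul_le_mul_of_nonneg_left h3 (by positivity)
        _ = ε := by field_simp
    · rw [ContinuousMap.smul_apply, smul_eq_mul, h4, ← tsum_mul_left]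
      exact tsum_congr fun j => by ring
  · intro ν _ hint hat
    obtain ⟨lam₀, hl0, hl⟩ := hmain ν hint hat
    refine ⟨lam₀ / α, by positivity, fun lam hlam hle i1 => ?_⟩
    have hle' : α * lam ≤ lam₀ := by
      rw [le_div_iff₀ hα0] at hle
      linarith
    have hkey : (α • (K - ContinuousMap.const _ m) + gK g1 d : C(UnitAddTorus (Fin d), ℝ)) =
        α • ((K + gK (α⁻¹ • g1) d) - ContinuousMap.const _ m) := by
      ext k
      simp only [ContinuousMap.add_apply, ContinuousMap.smul_apply, ContinuousMap.sub_apply,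
        ContinuousMap.const_apply, smul_eq_mul, gK, ContinuousMap.comp_apply]
      field_simp
      ring
    have i2 : IsProbabilityMeasure (ν.map fun x => α * lam * x) :=
      Measure.isProbabilityMeasure_map (by fun_prop)
    have i3 : IsProbabilityMeasure ((ν.map fun x => lam * x).map fun x => α * x) :=
      Measure.isProbabilityMeasure_map (by fun_prop)
    have h1 := lapG_of (hl (α * lam) (by positivity) hle').2
    rw [hkey] at h1
    have hmap : (ν.map fun x => α * lam * x) = (ν.map fun x => lam * x).map fun x => α * x := by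
      rw [Measure.map_map (by fun_prop) (by fun_prop)]
      congr 1
      funext x
      simp only [Function.comp]
      ring
    have h2 := lapG_aff hα0 m 0 (4 * d) (K := K + gK (α⁻¹ • g1) d) (ν := ν.map fun x => lam * x)
      (LapG_congr hmap rfl rfl rfl h1)
    refine LapG_congr rfl (by simp) ?_ ?_ h2
    · rw [← hαM]
      field_simp
      ring
    · rw [← hαM]
      field_simp

end

end Pool.Agent.U281.LAP
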